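import Pool.Agent.Lib.MP_534936_co.Gql

/-!
# Circular-arc graphs with independence number two
-/

set_option autoImplicit false

namespace Pool.Agent.Lib.MP_534936_co

open Finset

/-- an injection of `X` into `Y` which is the identity on the common elements -/
theorem exists_inj_fix {V : Type} (X Y : Finset V) (h : X.card ≤ Y.card) :
    ∃ f : V → V, (∀ u ∈ X, ∀ v ∈ X, f u = f v → u = v) ∧ (∀ v ∈ X, f v ∈ Y) ∧
      ∀ v ∈ X, v ∈ Y → f v = v := by
  classical
  obtain ⟨g, hg1, hg2⟩ := exists_inj_self (X \ Y) (Y \ X) (by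
    have h1 := Finset.card_sdiff_add_card_inter X Y
    have h2 := Finset.card_sdiff_add_card_inter Y X
    rw [Finset.inter_comm Y X] at h2
    omega)
  refine ⟨fun v => if v ∈ Y then v else g v, ?_, ?_, ?_⟩
  · intro u hu v hv huv
    by_cases h1 : u ∈ Y
    · by_cases h2 : v ∈ Y
      · simpa [h1, h2] using huv
      · exfalso
        simp only [h1, h2, if_true, if_false] at huv
        have h3 := hg2 v (Finset.mem_sdiff.2 ⟨hv, h2⟩)
        rw [← huv] at h3
        exact (Finset.mem_sdiff.1 h3).2 hu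
    · by_cases h2 : v ∈ Y
      · exfalso
        simp only [h1, h2, if_true, if_false] at huv
        have h3 := hg2 u (Finset.mem_sdiff.2 ⟨hu, h1⟩)
        rw [huv] at h3
        exact (Finset.mem_sdiff.1 h3).2 hv
      · simp only [h1, h2, if_false] at huv
        exact hg1 u (Finset.mem_sdiff.2 ⟨hu, h1⟩) v (Finset.mem_sdiff.2 ⟨hv, h2⟩) huv
  · intro v hv
    by_cases h1 : v ∈ Y
    · simp only [h1, if_true]
    · simp only [h1, if_false]
      exact (Finset.mem_sdiff.1 (hg2 v (Finset.mem_sdiff.2 ⟨hv, h1⟩))).1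
  · intro v _ h1
    simp only [h1, if_true]

/-- a clique and `m` groups -/
theorem glue_groups {V : Type} [Fintype V] (G : SimpleGraph V) (Q : Finset V) (m k : ℕ)
    (hk : k = Q.card + m) (hQQ : ∀ u ∈ Q, ∀ v ∈ Q, u ≠ v → G.Adj u v)
    (P : Fin m → Set V) (hPQ : ∀ i, ∀ q ∈ Q, q ∉ P i)
    (hPd : ∀ i j, i ≠ j → Disjoint (P i) (P j)) (hPc : ∀ i, (G.induce (P i)).Connected)
    (hPP : ∀ i j, i ≠ j → ∃ x ∈ P i, ∃ y ∈ P j, G.Adj x y)
    (hq : ∀ q ∈ Q, ∀ i, ∃ g ∈ P i, G.Adj q g) : HasMinor G k := by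
  classical
  obtain ⟨f, hf⟩ : ∃ f : {v // v ∈ Q} ⊕ Fin m → Set V, f = fun x =>
    Sum.elim (fun q : {v // v ∈ Q} => ({q.1} : Set V)) (fun i => P i) x := ⟨_, rfl⟩
  have f1 : ∀ q, f (Sum.inl q) = {q.1} := fun q => by rw [hf]; rfl
  have f2 : ∀ i, f (Sum.inr i) = P i := fun i => by rw [hf]; rfl
  refine hasMinor_of_equiv G k ?_ f ?_ ?_
  · rw [Fintype.card_sum, Fintype.card_coe, Fintype.card_fin, hk]
  · intro x
    rcases x with q | i
    · rw [f1]
      exact conn_single G q.1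
    · rw [f2]
      exact hPc i
  · have hqi : ∀ q ∈ Q, ∀ i, Disjoint ({q} : Set V) (P i) := by
      intro q hqQ i
      rw [Set.disjoint_singleton_left]
      exact hPQ i q hqQ
    intro x y hxy
    rcases x with q | i
    · rcases y with q' | j
      · have hne : q.1 ≠ q'.1 := fun h => hxy (congrArg Sum.inl (Subtype.ext h))
        rw [f1, f1]
        refine ⟨?_, q.1, rfl, q'.1, rfl, hQQ _ q.2 _ q'.2 hne⟩
        rw [Set.disjoint_singleton]
        exact hne
      · rw [f1, f2]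
        obtain ⟨g, hg1, hg2⟩ := hq q.1 q.2 j
        exact ⟨hqi q.1 q.2 j, q.1, rfl, g, hg1, hg2⟩
    · rcases y with q' | j
      · rw [f1, f2]
        obtain ⟨g, hg1, hg2⟩ := hq q'.1 q'.2 i
        exact ⟨(hqi q'.1 q'.2 i).symm, g, hg1, q'.1, rfl, hg2.symm⟩
      · have hij : i ≠ j := fun h => hxy (congrArg Sum.inr h)
        rw [f2, f2]
        exact ⟨hPd i j hij, hPP i j hij⟩

theorem alpha_two_norm {V : Type} [Fintype V] (N : ℤ) (hN : 0 < N) (a l : V → ℤ)
    (ha : ∀ v, 0 ≤ a v ∧ a v < N) (hl : ∀ v, 0 ≤ l v ∧ l v < N)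
    (G : SimpleGraph V) (hG : ∀ u v, G.Adj u v ↔ u ≠ v ∧ ∃ p, Mem N a l u p ∧ Mem N a l v p)
    (L n : ℕ)
    (hL : ∀ p, (fl Finset.univ (fun v => Mem N a l v p)).card ≤ L)
    (hL0 : (fl Finset.univ (fun v => Mem N a l v 0)).card = L)
    (h2 : ∀ u v w : V, u ≠ v → u ≠ w → v ≠ w → G.Adj u v ∨ G.Adj u w ∨ G.Adj v w)
    (hcard : 2 * n < Fintype.card V) : HasMinor G (n + 1) := by
  classical
  obtain ⟨H, hH⟩ : ∃ H : Finset V, H = fl Finset.univ (fun v => ¬ Mem N a l v 0) := ⟨_, rfl⟩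
  obtain ⟨Q, hQ⟩ : ∃ Q : Finset V, Q = fl Finset.univ (fun v => Mem N a l v 0) := ⟨_, rfl⟩
  have hmH : ∀ v, v ∈ H ↔ ¬ Mem N a l v 0 := fun v => by
    rw [hH, mem_fl]
    simp
  have hmQ : ∀ v, v ∈ Q ↔ Mem N a l v 0 := fun v => by
    rw [hQ, mem_fl]
    simp
  have hQL : Q.card = L := by rw [hQ, hL0]
  have hQQ : ∀ u ∈ Q, ∀ v ∈ Q, u ≠ v → G.Adj u v := by
    intro u hu v hv huv
    exact (hG u v).2 ⟨huv, 0, (hmQ u).1 hu, (hmQ v).1 hv⟩
  by_cases hcase : n + 1 ≤ L
  · exact hasMinor_of_clique G (n + 1) Q (by rw [hQL]; exact hcase) hQQ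
  obtain ⟨m, hm⟩ : ∃ m : ℕ, n + 1 = L + m := ⟨n + 1 - L, by omega⟩
  have hm1 : 1 ≤ m := by omega
  have hHQ : H.card + L = Fintype.card V := by
    have h4 : Q ∪ H = Finset.univ := by
      ext v
      rw [Finset.mem_union, hmQ, hmH]
      simp only [Finset.mem_univ, iff_true]
      exact Classical.em _
    have h5 : Disjoint Q H := by
      rw [Finset.disjoint_left]
      intro v hv hv'
      exact (hmH v).1 hv' ((hmQ v).1 hv)
    have h6 := Finset.card_union_of_disjoint h5
    rw [h4, Finset.card_univ, hQL] at h6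
    omega
  have hHc : L + 2 * m - 1 ≤ H.card := by omega
  -- the arcs of `H` are intervals
  have hHn : ∀ h ∈ H, 1 ≤ a h ∧ a h + l h ≤ N - 1 ∧
      ∀ p, 0 ≤ p → p < N → (Mem N a l h p ↔ a h ≤ p ∧ p ≤ a h + l h) := fun h hh =>
    mem_h hN (ha h) (hl h) ((hmH h).1 hh)
  have hHae : ∀ h ∈ H, a h ≤ a h + l h := by
    intro h _
    have := hl h
    omega
  have hshare : ∀ u v, G.Adj u v → ∃ p, 0 ≤ p ∧ p < N ∧ Mem N a l u p ∧ Mem N a l v p := by
    intro u v huv
    obtain ⟨-, p, h4, h5⟩ := (hG u v).1 huv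
    refine ⟨p % N, Int.emod_nonneg _ hN.ne', Int.emod_lt_of_pos _ hN, ?_, ?_⟩
    · rw [mem_mod]
      exact h4
    · rw [mem_mod]
      exact h5
  have hadjH : ∀ u ∈ H, ∀ v ∈ H, u ≠ v → ∀ p, a u ≤ p → p ≤ a u + l u → a v ≤ p →
      p ≤ a v + l v → G.Adj u v := by
    intro u hu v hv huv p h4 h5 h6 h7
    have h8 := hHn u hu
    have h9 := hHn v hv
    have hau := ha u
    refine (hG u v).2 ⟨huv, p, (h8.2.2 p (by omega) (by omega)).2 ⟨h4, h5⟩,
      (h9.2.2 p (by omega) (by omega)).2 ⟨h6, h7⟩⟩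
  -- adjacent arcs of `H` meet as intervals
  have hmeet : ∀ u ∈ H, ∀ v ∈ H, G.Adj u v → a u ≤ a v + l v := by
    intro u hu v hv huv
    obtain ⟨p, h4, h5, h6, h7⟩ := hshare u v huv
    have h8 := ((hHn u hu).2.2 p h4 h5).1 h6
    have h9 := ((hHn v hv).2.2 p h4 h5).1 h7
    omega
  have hload : ∀ p, 0 ≤ p → p < N → (fl H (fun h => a h ≤ p ∧ p ≤ a h + l h)).card +
      (fl Q (fun q => Mem N a l q p)).card ≤ L := by
    intro p hp hp'
    have h4 : Disjoint (fl H (fun h => a h ≤ p ∧ p ≤ a h + l h)) (fl Q (fun q => Mem N a l q p)) := by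
      rw [Finset.disjoint_left]
      intro v hv hv'
      exact (hmH v).1 (mem_fl.1 hv).1 ((hmQ v).1 (mem_fl.1 hv').1)
    rw [← Finset.card_union_of_disjoint h4]
    refine le_trans (Finset.card_le_card ?_) (hL p)
    intro v hv
    rcases Finset.mem_union.1 hv with h5 | h5
    · rw [mem_fl] at h5
      exact mem_fl.2 ⟨Finset.mem_univ v, ((hHn v h5.1).2.2 p hp hp').2 h5.2⟩
    · exact mem_fl.2 ⟨Finset.mem_univ v, (mem_fl.1 h5).2⟩
  have hmc : m ≤ H.card := by omega
  obtain ⟨x, xinj, xH, xr⟩ := sorted_enum H (fun h => a h + l h) m hmc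
  obtain ⟨y, yinj, yH, yr⟩ := sorted_enum H (fun h => - a h) m hmc
  -- every `x i` is left of every `y j`
  have hxy : ∀ i j, a (x i) + l (x i) < a (y j) := by
    intro i j
    by_contra hlt
    push Not at hlt
    have h4 : (fl H (fun h => a h + l h ≤ a (x i) + l (x i) - 1)).card ≤ (i : ℕ) := by
      by_contra h5
      push Not at h5
      have h6 : a (x i) + l (x i) ≤ a (x i) + l (x i) - 1 := xr i _ h5
      omega
    have h5 : (fl H (fun h => - a h ≤ - a (y j) - 1)).card ≤ (j : ℕ) := by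
      by_contra h6
      push Not at h6
      have h7 : - a (y j) ≤ - a (y j) - 1 := yr j _ h6
      omega
    have h6 : H ⊆ (fl H (fun h => a h + l h ≤ a (x i) + l (x i) - 1) ∪
        fl H (fun h => - a h ≤ - a (y j) - 1)) ∪
        fl H (fun h => a h ≤ a (y j) ∧ a (y j) ≤ a h + l h) := by
      intro h hh
      by_cases c1 : a h + l h ≤ a (x i) + l (x i) - 1
      · exact Finset.mem_union_left _ (Finset.mem_union_left _ (mem_fl.2 ⟨hh, c1⟩))
      · by_cases c2 : - a h ≤ - a (y j) - 1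
        · exact Finset.mem_union_left _ (Finset.mem_union_right _ (mem_fl.2 ⟨hh, c2⟩))
        · exact Finset.mem_union_right _ (mem_fl.2 ⟨hh, by omega, by omega⟩)
    have h7 := Finset.card_le_card h6
    have h8 := Finset.card_union_le (fl H (fun h => a h + l h ≤ a (x i) + l (x i) - 1) ∪
        fl H (fun h => - a h ≤ - a (y j) - 1))
        (fl H (fun h => a h ≤ a (y j) ∧ a (y j) ≤ a h + l h))
    have h9 := Finset.card_union_le (fl H (fun h => a h + l h ≤ a (x i) + l (x i) - 1))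
        (fl H (fun h => - a h ≤ - a (y j) - 1))
    have h10 := hload (a (y j)) (ha _).1 (ha _).2
    have h11 := i.2
    have h12 := j.2
    omega
  obtain ⟨j0, hj0⟩ : ∃ j0 : Fin m, (j0 : ℕ) = 0 := ⟨⟨0, by omega⟩, rfl⟩
  obtain ⟨B, hB⟩ : ∃ B : ℤ, B = a (y j0) := ⟨_, rfl⟩
  have hBmax : ∀ h ∈ H, a h ≤ B := by
    intro h hh
    have h4 : - a (y j0) ≤ - a h := by
      refine yr j0 _ ?_
      rw [hj0]
      exact Finset.card_pos.2 ⟨h, mem_fl.2 ⟨hh, le_refl _⟩⟩
    omega
  -- arcs of `H` on different sides are not adjacent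
  have hnadj : ∀ u ∈ H, ∀ v ∈ H, a u + l u < a v → ¬ G.Adj u v := by
    intro u hu v hv h4 h5
    have := hmeet v hv u hu h5.symm
    omega
  have hne : ∀ u ∈ H, ∀ v ∈ H, a u + l u < a v → u ≠ v := by
    intro u hu v hv h4 h5
    rw [h5] at h4
    have := hHae v hv
    omega
  have hyB : ∀ j, a (y j) ≤ B ∧ B ≤ a (y j) + l (y j) := by
    intro j
    refine ⟨hBmax _ (yH j), ?_⟩
    by_cases hj : y j = y j0
    · rw [hj, hB]
      exact hHae _ (yH j0)
    · have h4 := hxy j0 j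
      have h5 := hxy j0 j0
      rcases h2 (x j0) (y j) (y j0) (hne _ (xH _) _ (yH _) h4) (hne _ (xH _) _ (yH _) h5) hj with
        h6 | h6 | h6
      · exact absurd h6 (hnadj _ (xH _) _ (yH _) h4)
      · exact absurd h6 (hnadj _ (xH _) _ (yH _) h5)
      · rw [hB]
        exact hmeet _ (yH j0) _ (yH j) h6.symm
  -- the cut lemma
  have hcut : ∀ p, p < B → (∃ g ∈ H, a g + l g = p) →
      m ≤ (fl H (fun h => a h ≤ p ∧ p < a h + l h)).card := by
    intro p hp hg
    obtain ⟨g, hgH, hge⟩ := hg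
    obtain ⟨I, hI⟩ : ∃ I : Finset V, I = fl H (fun h => a h + l h ≤ p) := ⟨_, rfl⟩
    obtain ⟨R, hR⟩ : ∃ R : Finset V, R = fl H (fun h => p < a h) := ⟨_, rfl⟩
    have hmI : ∀ v, v ∈ I ↔ v ∈ H ∧ a v + l v ≤ p := fun v => by rw [hI, mem_fl]
    have hmR : ∀ v, v ∈ R ↔ v ∈ H ∧ p < a v := fun v => by rw [hR, mem_fl]
    obtain ⟨t0, ht0, ht0max⟩ := Finset.exists_max_image I a ⟨g, (hmI g).2 ⟨hgH, hge.le⟩⟩
    obtain ⟨g0, hg0, hg0min⟩ := Finset.exists_min_image R (fun h => a h + l h)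
      ⟨y j0, (hmR _).2 ⟨yH j0, by rw [← hB]; exact hp⟩⟩
    have ht0H := (hmI t0).1 ht0
    have hg0H := (hmR g0).1 hg0
    have hIR : ∀ u ∈ I, ∀ v ∈ R, a u + l u < a v := by
      intro u hu v hv
      have h4 := ((hmI u).1 hu).2
      have h5 := ((hmR v).1 hv).2
      omega
    have hIc : ∀ h ∈ I, a h ≤ a t0 ∧ a t0 ≤ a h + l h := by
      intro h hh
      refine ⟨ht0max h hh, ?_⟩
      by_cases he : h = t0
      · rw [he]
        exact hHae _ ht0H.1
      · have hhH := ((hmI h).1 hh).1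
        have h4 := hIR h hh g0 hg0
        have h5 := hIR t0 ht0 g0 hg0
        rcases h2 h t0 g0 he (hne _ hhH _ hg0H.1 h4) (hne _ ht0H.1 _ hg0H.1 h5) with h6 | h6 | h6
        · exact hmeet _ ht0H.1 _ hhH h6.symm
        · exact absurd h6 (hnadj _ hhH _ hg0H.1 h4)
        · exact absurd h6 (hnadj _ ht0H.1 _ hg0H.1 h5)
    have hRc : ∀ h ∈ R, a h ≤ a g0 + l g0 ∧ a g0 + l g0 ≤ a h + l h := by
      intro h hh
      refine ⟨?_, hg0min h hh⟩
      by_cases he : h = g0
      · rw [he]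
        exact hHae _ hg0H.1
      · have hhH := ((hmR h).1 hh).1
        have h4 := hIR t0 ht0 h hh
        have h5 := hIR t0 ht0 g0 hg0
        rcases h2 t0 h g0 (hne _ ht0H.1 _ hhH h4) (hne _ ht0H.1 _ hg0H.1 h5) he with h6 | h6 | h6
        · exact absurd h6 (hnadj _ ht0H.1 _ hhH h4)
        · exact absurd h6 (hnadj _ ht0H.1 _ hg0H.1 h5)
        · exact hmeet _ hhH _ hg0H.1 h6
    have ht0n := hHn t0 ht0H.1
    have hg0n := hHn g0 hg0H.1
    have hlt0 := hl t0
    have hlg0 := hl g0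
    have hQc : ∀ q ∈ Q, Mem N a l q (a t0) ∨ Mem N a l q (a g0 + l g0) := by
      intro q hq
      by_contra hno
      push Not at hno
      obtain ⟨hno1, hno2⟩ := hno
      have hMq := (hmQ q).1 hq
      rw [mem_q hN (ha q) (hl q) hMq (by omega) (by omega)] at hno1
      rw [mem_q hN (ha q) (hl q) hMq (by omega) (by omega)] at hno2
      push Not at hno1 hno2
      have h5 := hIR t0 ht0 g0 hg0
      have hqt : ¬ G.Adj q t0 := by
        intro h6
        obtain ⟨z, hz1, hz2, hz3, hz4⟩ := hshare q t0 h6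
        rw [mem_q hN (ha q) (hl q) hMq hz1 hz2] at hz3
        rw [ht0n.2.2 z hz1 hz2] at hz4
        omega
      have hqg : ¬ G.Adj q g0 := by
        intro h6
        obtain ⟨z, hz1, hz2, hz3, hz4⟩ := hshare q g0 h6
        rw [mem_q hN (ha q) (hl q) hMq hz1 hz2] at hz3
        rw [hg0n.2.2 z hz1 hz2] at hz4
        omega
      have hqne : ∀ h ∈ H, q ≠ h := by
        intro h hh he
        rw [he] at hMq
        exact (hmH h).1 hh hMq
      rcases h2 q t0 g0 (hqne _ ht0H.1) (hqne _ hg0H.1) (hne _ ht0H.1 _ hg0H.1 h5) with h6 | h6 | h6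
      · exact hqt h6
      · exact hqg h6
      · exact hnadj _ ht0H.1 _ hg0H.1 h5 h6
    have c1 : I.card + (fl Q (fun q => Mem N a l q (a t0))).card ≤ L := by
      refine le_trans (Nat.add_le_add_right (Finset.card_le_card ?_) _) (hload (a t0) (by omega)
        (by omega))
      intro v hv
      exact mem_fl.2 ⟨((hmI v).1 hv).1, hIc v hv⟩
    have c2 : R.card + (fl Q (fun q => Mem N a l q (a g0 + l g0))).card ≤ L := by
      refine le_trans (Nat.add_le_add_right (Finset.card_le_card ?_) _) (hload (a g0 + l g0)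
        (by omega) (by omega))
      intro v hv
      exact mem_fl.2 ⟨((hmR v).1 hv).1, hRc v hv⟩
    have c3 : L ≤ (fl Q (fun q => Mem N a l q (a t0))).card +
        (fl Q (fun q => Mem N a l q (a g0 + l g0))).card := by
      rw [← hQL]
      refine le_trans (Finset.card_le_card ?_) (Finset.card_union_le _ _)
      intro q hq
      rcases hQc q hq with h6 | h6
      · exact Finset.mem_union_left _ (mem_fl.2 ⟨hq, h6⟩)
      · exact Finset.mem_union_right _ (mem_fl.2 ⟨hq, h6⟩)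
    have c4 : H.card ≤ (I.card + R.card) + (fl H (fun h => a h ≤ p ∧ p < a h + l h)).card := by
      have h6 : H ⊆ (I ∪ R) ∪ fl H (fun h => a h ≤ p ∧ p < a h + l h) := by
        intro h hh
        by_cases c1 : a h + l h ≤ p
        · exact Finset.mem_union_left _ (Finset.mem_union_left _ ((hmI h).2 ⟨hh, c1⟩))
        · by_cases c2 : p < a h
          · exact Finset.mem_union_left _ (Finset.mem_union_right _ ((hmR h).2 ⟨hh, c2⟩))
          · exact Finset.mem_union_right _ (mem_fl.2 ⟨hh, by omega, by omega⟩)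
      have h7 := Finset.card_le_card h6
      have h8 := Finset.card_union_le (I ∪ R) (fl H (fun h => a h ≤ p ∧ p < a h + l h))
      have h9 := Finset.card_union_le I R
      omega
    omega
  -- the hops
  obtain ⟨Γ, z, gH, xG, zG, gg1, gB, gg, -, -, -, gc⟩ := hop (ι := Fin m) G H
    a (fun h => a h + l h) B (fun _ _ => False) hadjH hHae (by
      intro p hp hg i
      rw [Fintype.card_fin]
      refine le_trans (hcut p hp hg) (Finset.card_le_card ?_)
      intro h hh
      rw [mem_fl] at hh ⊢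
      exact ⟨hh.1, hh.2.1, hh.2.2, not_false⟩) _ x (le_refl _) xinj xH (fun i => not_false)
  have zH : ∀ i, z i ∈ H := fun i => gH i (zG i)
  have zinj : Function.Injective z := by
    intro i j hij
    by_contra h4
    exact (Finset.disjoint_left.1 (gg1 i j h4)) (zG i) (hij ▸ zG j)
  obtain ⟨w0, hw1, hw2, hw3⟩ := exists_inj_fix (Finset.univ.image z) (Finset.univ.image y) (by
    rw [Finset.card_image_of_injective _ zinj, Finset.card_image_of_injective _ yinj])
  obtain ⟨w, hw⟩ : ∃ w : Fin m → V, w = fun i => w0 (z i) := ⟨_, rfl⟩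
  have zim : ∀ i, z i ∈ Finset.univ.image z := fun i =>
    Finset.mem_image_of_mem z (Finset.mem_univ i)
  have winj : Function.Injective w := by
    intro i j hij
    rw [hw] at hij
    exact zinj (hw1 _ (zim i) _ (zim j) hij)
  have wy : ∀ i, ∃ j, w i = y j := by
    intro i
    have h4 := hw2 _ (zim i)
    obtain ⟨j, -, hj⟩ := Finset.mem_image.1 h4
    refine ⟨j, ?_⟩
    rw [hw]
    exact hj.symm
  have wH : ∀ i, w i ∈ H := by
    intro i
    obtain ⟨j, hj⟩ := wy i
    rw [hj]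
    exact yH j
  have wB : ∀ i, a (w i) ≤ B ∧ B ≤ a (w i) + l (w i) := by
    intro i
    obtain ⟨j, hj⟩ := wy i
    rw [hj]
    exact hyB j
  have wfix : ∀ i j, w i = z j → i = j := by
    intro i j hij
    have h4 : z j ∈ Finset.univ.image y := by
      obtain ⟨j', hj'⟩ := wy i
      rw [← hij, hj']
      exact Finset.mem_image_of_mem y (Finset.mem_univ j')
    have h5 := hw3 _ (zim j) h4
    apply winj
    rw [hij, hw]
    exact h5.symm
  have wΓ : ∀ i j, w i ∈ Γ j → i = j := by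
    intro i j hij
    rcases gg j (w i) hij with h4 | h4
    · exact wfix i j h4
    · have := (wB i).2
      omega
  refine glue_groups G Q m (n + 1) (by rw [hQL]; exact hm) hQQ
    (fun i => (Γ i : Set V) ∪ {w i}) ?_ ?_ ?_ ?_ ?_
  · intro i q hq h4
    have h5 : q ∈ H := by
      rcases h4 with h4 | h4
      · exact gH i h4
      · have h6 : q = w i := h4
        rw [h6]
        exact wH i
    exact (hmH q).1 h5 ((hmQ q).1 hq)
  · intro i j hij
    rw [Set.disjoint_left]
    intro v hv hv'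
    rcases hv with h4 | h4
    · rcases hv' with h5 | h5
      · exact (Finset.disjoint_left.1 (gg1 i j hij)) h4 h5
      · have h6 : v = w j := h5
        rw [h6] at h4
        exact hij (wΓ j i h4).symm
    · have h6 : v = w i := h4
      rcases hv' with h5 | h5
      · rw [h6] at h5
        exact hij (wΓ i j h5)
      · have h7 : v = w j := h5
        exact hij (winj (h6.symm.trans h7))
  · intro i
    refine conn_union G (gc i) (conn_single G (w i)) (Finset.mem_coe.2 (zG i)) rfl ?_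
    by_cases h4 : z i = w i
    · exact Or.inl h4
    · right
      exact hadjH _ (zH i) _ (wH i) h4 B (hBmax _ (zH i)) (gB i) (wB i).1 (wB i).2
  · intro i j hij
    refine ⟨w i, Or.inr rfl, w j, Or.inr rfl, ?_⟩
    exact hadjH _ (wH i) _ (wH j) (fun h => hij (winj h)) B (wB i).1 (wB i).2 (wB j).1 (wB j).2
  · intro q hq i
    have hMq := (hmQ q).1 hq
    have hqne : ∀ h ∈ H, q ≠ h := by
      intro h hh he
      rw [he] at hMq
      exact (hmH h).1 hh hMq
    obtain ⟨j, hj⟩ := wy i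
    have h4 : a (x i) + l (x i) < a (w i) := by
      rw [hj]
      exact hxy i j
    rcases h2 q (x i) (w i) (hqne _ (xH i)) (hqne _ (wH i)) (hne _ (xH i) _ (wH i) h4) with
      h5 | h5 | h5
    · exact ⟨x i, Or.inl (Finset.mem_coe.2 (xG i)), h5⟩
    · exact ⟨w i, Or.inr rfl, h5⟩
    · exact absurd h5 (hnadj _ (xH i) _ (wH i) h4)

end Pool.Agent.Lib.MP_534936_co
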