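import Pool.Agent.Lib.MP_534936_co.Main

/-!
# Cuts and degrees in a critical normalised family
-/

set_option autoImplicit false

namespace Pool.Agent.Lib.MP_534936_co

open Finset

theorem adj_pt {V : Type} {N : ℤ} (hN : 0 < N) {a l : V → ℤ} {u v : V}
    (h : ∃ p, Mem N a l u p ∧ Mem N a l v p) : ∃ p, 0 ≤ p ∧ p < N ∧ Mem N a l u p ∧ Mem N a l v p := by
  obtain ⟨p, h1, h2⟩ := h
  exact ⟨p % N, Int.emod_nonneg _ hN.ne', Int.emod_lt_of_pos _ hN, (mem_mod N a l u p).2 h1,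
    (mem_mod N a l v p).2 h2⟩

/-- arcs over an end point in the left or middle part -/
theorem left_bound {V : Type} [Fintype V] (N : ℤ) (hN : 0 < N) (a l : V → ℤ)
    (ha : ∀ v, 0 ≤ a v ∧ a v < N) (hl : ∀ v, 0 ≤ l v ∧ l v < N)
    (G : SimpleGraph V) (hG : ∀ u v, G.Adj u v ↔ u ≠ v ∧ ∃ p, Mem N a l u p ∧ Mem N a l v p)
    (L m n : ℕ) (hn : n + 1 = L + m)
    (hL : ∀ p, (fl Finset.univ (fun v => Mem N a l v p)).card ≤ L)
    (hcrit : ∀ q, ∃ c : V → ℕ, (∀ v, v ≠ q → c v < n) ∧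
      ∀ u v, u ≠ q → v ≠ q → G.Adj u v → c u ≠ c v)
    (hno : ¬ ∃ c : V → ℕ, (∀ v, c v < n) ∧ ∀ u v, G.Adj u v → c u ≠ c v)
    (B : ℤ) (hB : ∀ q, Mem N a l q 0 → B ≤ dd N a l q)
    (p : ℤ) (hp : p < B) (hg : ∃ g, ¬ Mem N a l g 0 ∧ a g + l g = p) :
    m ≤ (fl (fl Finset.univ (fun v => ¬ Mem N a l v 0))
      (fun h => a h ≤ p ∧ p < a h + l h)).card := by
  obtain ⟨H, hH⟩ : ∃ H : Finset V, H = fl Finset.univ (fun v => ¬ Mem N a l v 0) := ⟨_, rfl⟩
  rw [← hH]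
  have hmH : ∀ v, v ∈ H ↔ ¬ Mem N a l v 0 := fun v => by
    rw [hH, mem_fl]
    simp
  obtain ⟨g, hg1, hg2⟩ := hg
  refine crit_lemma G n L m hn (fl H (fun h => a h + l h ≤ p)) _
    (fl Finset.univ (fun v => Mem N a l v 0)) a ?_ hno ?_ ?_
  · obtain ⟨c, h1, h2⟩ := hcrit g
    have hgI : ∀ v, v ∉ fl H (fun h => a h + l h ≤ p) → v ≠ g := by
      intro v hv hvg
      rw [hvg] at hv
      exact hv (mem_fl.2 ⟨(hmH g).2 hg1, hg2.le⟩)
    exact ⟨c, fun v hv => h1 v (hgI v hv), fun u v hu hv huv => h2 u v (hgI u hu) (hgI v hv) huv⟩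
  · intro t ht u htu
    have ht' := mem_fl.1 ht
    by_cases hu : Mem N a l u 0
    · right
      right
      exact mem_fl.2 ⟨Finset.mem_univ u, hu⟩
    · obtain ⟨x, hx1, hx2, hx3, hx4⟩ := adj_pt hN ((hG t u).1 htu).2
      have h1 := ((mem_h hN (ha t) (hl t) ((hmH t).1 ht'.1)).2.2 x hx1 hx2).1 hx3
      have h2 := ((mem_h hN (ha u) (hl u) hu).2.2 x hx1 hx2).1 hx4
      have h3 : a t + l t ≤ p := ht'.2
      by_cases h4 : a u + l u ≤ p
      · left
        exact mem_fl.2 ⟨(hmH u).2 hu, h4⟩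
      · right
        left
        exact mem_fl.2 ⟨(hmH u).2 hu, by omega, by omega⟩
  · intro t ht
    have ht' := mem_fl.1 ht
    have h0 := mem_h hN (ha t) (hl t) ((hmH t).1 ht'.1)
    have h3 : a t + l t ≤ p := ht'.2
    have hat := ha t
    have hlt := hl t
    refine lt_of_lt_of_le ?_ (hL (a t))
    refine Finset.card_lt_card ?_
    rw [Finset.ssubset_iff_subset_ne]
    constructor
    · intro u hu
      rw [mem_fl] at hu ⊢
      obtain ⟨-, h4, h5⟩ := hu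
      refine ⟨Finset.mem_univ u, ?_⟩
      obtain ⟨x, hx1, hx2, hx3, hx4⟩ := adj_pt hN ((hG t u).1 h5).2
      have h1 := (h0.2.2 x hx1 hx2).1 hx3
      rcases h4 with h4 | h4
      · have h4' := (mem_fl.1 h4).2
        have h6 := (mem_q hN (ha u) (hl u) h4' hx1 hx2).1 hx4
        have h7 := hB u h4'
        exact (mem_q hN (ha u) (hl u) h4' hat.1 hat.2).2 (by omega)
      · have h4' := (hmH u).1 (mem_fl.1 h4.1).1
        have h6 := ((mem_h hN (ha u) (hl u) h4').2.2 x hx1 hx2).1 hx4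
        have h8 := h4.2
        exact ((mem_h hN (ha u) (hl u) h4').2.2 (a t) hat.1 hat.2).2 ⟨h8, by omega⟩
    · intro heq
      have h9 : t ∈ fl Finset.univ (fun v => Mem N a l v (a t)) :=
        mem_fl.2 ⟨Finset.mem_univ t, (h0.2.2 (a t) hat.1 hat.2).2 ⟨le_refl _, by omega⟩⟩
      rw [← heq, mem_fl] at h9
      exact G.loopless.irrefl t h9.2.2

/-- arcs over a start point in the right or middle part -/
theorem right_bound {V : Type} [Fintype V] (N : ℤ) (hN : 0 < N) (a l : V → ℤ)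
    (ha : ∀ v, 0 ≤ a v ∧ a v < N) (hl : ∀ v, 0 ≤ l v ∧ l v < N)
    (G : SimpleGraph V) (hG : ∀ u v, G.Adj u v ↔ u ≠ v ∧ ∃ p, Mem N a l u p ∧ Mem N a l v p)
    (L m n : ℕ) (hn : n + 1 = L + m)
    (hL : ∀ p, (fl Finset.univ (fun v => Mem N a l v p)).card ≤ L)
    (hcrit : ∀ q, ∃ c : V → ℕ, (∀ v, v ≠ q → c v < n) ∧
      ∀ u v, u ≠ q → v ≠ q → G.Adj u v → c u ≠ c v)
    (hno : ¬ ∃ c : V → ℕ, (∀ v, c v < n) ∧ ∀ u v, G.Adj u v → c u ≠ c v)
    (R : ℤ) (hR : ∀ q, Mem N a l q 0 → rr N a l q ≤ R)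
    (p : ℤ) (hp : R < p) (hg : ∃ g, ¬ Mem N a l g 0 ∧ a g = p) :
    m ≤ (fl (fl Finset.univ (fun v => ¬ Mem N a l v 0))
      (fun h => a h ≤ p - 1 ∧ p ≤ a h + l h)).card := by
  obtain ⟨H, hH⟩ : ∃ H : Finset V, H = fl Finset.univ (fun v => ¬ Mem N a l v 0) := ⟨_, rfl⟩
  rw [← hH]
  have hmH : ∀ v, v ∈ H ↔ ¬ Mem N a l v 0 := fun v => by
    rw [hH, mem_fl]
    simp
  obtain ⟨g, hg1, hg2⟩ := hg
  refine crit_lemma G n L m hn (fl H (fun h => p ≤ a h)) _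
    (fl Finset.univ (fun v => Mem N a l v 0)) (fun h => - (a h + l h)) ?_ hno ?_ ?_
  · obtain ⟨c, h1, h2⟩ := hcrit g
    have hgI : ∀ v, v ∉ fl H (fun h => p ≤ a h) → v ≠ g := by
      intro v hv hvg
      rw [hvg] at hv
      exact hv (mem_fl.2 ⟨(hmH g).2 hg1, hg2.ge⟩)
    exact ⟨c, fun v hv => h1 v (hgI v hv), fun u v hu hv huv => h2 u v (hgI u hu) (hgI v hv) huv⟩
  · intro t ht u htu
    have ht' := mem_fl.1 ht
    by_cases hu : Mem N a l u 0
    · right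
      right
      exact mem_fl.2 ⟨Finset.mem_univ u, hu⟩
    · obtain ⟨x, hx1, hx2, hx3, hx4⟩ := adj_pt hN ((hG t u).1 htu).2
      have h1 := ((mem_h hN (ha t) (hl t) ((hmH t).1 ht'.1)).2.2 x hx1 hx2).1 hx3
      have h2 := ((mem_h hN (ha u) (hl u) hu).2.2 x hx1 hx2).1 hx4
      have h3 : p ≤ a t := ht'.2
      by_cases h4 : p ≤ a u
      · left
        exact mem_fl.2 ⟨(hmH u).2 hu, h4⟩
      · right
        left
        exact mem_fl.2 ⟨(hmH u).2 hu, by omega, by omega⟩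
  · intro t ht
    have ht' := mem_fl.1 ht
    have h0 := mem_h hN (ha t) (hl t) ((hmH t).1 ht'.1)
    have h3 : p ≤ a t := ht'.2
    have hat := ha t
    have hlt := hl t
    refine lt_of_lt_of_le ?_ (hL (a t + l t))
    refine Finset.card_lt_card ?_
    rw [Finset.ssubset_iff_subset_ne]
    constructor
    · intro u hu
      rw [mem_fl] at hu ⊢
      obtain ⟨-, h4, h5⟩ := hu
      refine ⟨Finset.mem_univ u, ?_⟩
      obtain ⟨x, hx1, hx2, hx3, hx4⟩ := adj_pt hN ((hG t u).1 h5).2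
      have h1 := (h0.2.2 x hx1 hx2).1 hx3
      rcases h4 with h4 | h4
      · have h4' := (mem_fl.1 h4).2
        have h6 := (mem_q hN (ha u) (hl u) h4' hx1 hx2).1 hx4
        have h7 := hR u h4'
        exact (mem_q hN (ha u) (hl u) h4' (by omega) (by omega)).2 (by omega)
      · have h4' := (hmH u).1 (mem_fl.1 h4.1).1
        have h6 := ((mem_h hN (ha u) (hl u) h4').2.2 x hx1 hx2).1 hx4
        have h8 : -(a u + l u) ≤ -(a t + l t) := h4.2
        exact ((mem_h hN (ha u) (hl u) h4').2.2 (a t + l t) (by omega) (by omega)).2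
          ⟨by omega, by omega⟩
    · intro heq
      have h9 : t ∈ fl Finset.univ (fun v => Mem N a l v (a t + l t)) :=
        mem_fl.2 ⟨Finset.mem_univ t, (h0.2.2 (a t + l t) (by omega) (by omega)).2
          ⟨by omega, le_refl _⟩⟩
      rw [← heq, mem_fl] at h9
      exact G.loopless.irrefl t h9.2.2

/-- an arc of the clique meets at least `m` other arcs -/
theorem deg_bound {V : Type} [Fintype V] (N : ℤ) (hN : 0 < N) (a l : V → ℤ)
    (ha : ∀ v, 0 ≤ a v ∧ a v < N) (hl : ∀ v, 0 ≤ l v ∧ l v < N)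
    (G : SimpleGraph V) (hG : ∀ u v, G.Adj u v ↔ u ≠ v ∧ ∃ p, Mem N a l u p ∧ Mem N a l v p)
    (L m n : ℕ) (hn : n + 1 = L + m)
    (hL0 : (fl Finset.univ (fun v => Mem N a l v 0)).card = L)
    (hcrit : ∀ q, ∃ c : V → ℕ, (∀ v, v ≠ q → c v < n) ∧
      ∀ u v, u ≠ q → v ≠ q → G.Adj u v → c u ≠ c v)
    (hno : ¬ ∃ c : V → ℕ, (∀ v, c v < n) ∧ ∀ u v, G.Adj u v → c u ≠ c v)
    (q : V) (hq : Mem N a l q 0) :
    m ≤ (fl (fl Finset.univ (fun v => ¬ Mem N a l v 0)) (fun h => a h ≤ rr N a l q)).card +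
      (fl (fl Finset.univ (fun v => ¬ Mem N a l v 0)) (fun h => dd N a l q ≤ a h + l h)).card := by
  classical
  obtain ⟨H, hH⟩ : ∃ H : Finset V, H = fl Finset.univ (fun v => ¬ Mem N a l v 0) := ⟨_, rfl⟩
  obtain ⟨Q, hQ⟩ : ∃ Q : Finset V, Q = fl Finset.univ (fun v => Mem N a l v 0) := ⟨_, rfl⟩
  rw [← hH]
  rw [← hQ] at hL0
  have hmH : ∀ v, v ∈ H ↔ ¬ Mem N a l v 0 := fun v => by
    rw [hH, mem_fl]
    simp
  have hmQ : ∀ v, v ∈ Q ↔ Mem N a l v 0 := fun v => by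
    rw [hQ, mem_fl]
    simp
  have h1 := crit_deg G n q (hcrit q) hno
  have h2 : (fl Finset.univ (fun u => G.Adj q u)).card ≤ (Q.erase q).card +
      ((fl H (fun h => a h ≤ rr N a l q)).card + (fl H (fun h => dd N a l q ≤ a h + l h)).card) := by
    refine le_trans (Finset.card_le_card ?_) (le_trans (Finset.card_union_le (Q.erase q)
      (fl H (fun h => a h ≤ rr N a l q) ∪ fl H (fun h => dd N a l q ≤ a h + l h)))
      (Nat.add_le_add_left (Finset.card_union_le _ _) _))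
    intro u hu
    have hu' : G.Adj q u := (mem_fl.1 hu).2
    have hne : u ≠ q := fun h => G.loopless.irrefl q (h ▸ hu')
    by_cases h0 : Mem N a l u 0
    · exact Finset.mem_union_left _ (Finset.mem_erase.2 ⟨hne, (hmQ u).2 h0⟩)
    · refine Finset.mem_union_right _ ?_
      obtain ⟨x, hx1, hx2, hx3, hx4⟩ := adj_pt hN ((hG q u).1 hu').2
      have h5 := (mem_q hN (ha q) (hl q) hq hx1 hx2).1 hx3
      have h6 := ((mem_h hN (ha u) (hl u) h0).2.2 x hx1 hx2).1 hx4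
      rcases h5 with h5 | h5
      · exact Finset.mem_union_left _ (mem_fl.2 ⟨(hmH u).2 h0, by omega⟩)
      · exact Finset.mem_union_right _ (mem_fl.2 ⟨(hmH u).2 h0, by omega⟩)
  rw [Finset.card_erase_of_mem ((hmQ q).2 hq), hL0] at h2
  have h3 : 1 ≤ L := by
    rw [← hL0]
    exact Finset.card_pos.2 ⟨q, (hmQ q).2 hq⟩
  omega

end Pool.Agent.Lib.MP_534936_co
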