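import Pool.Agent.Lib.MP_534936_co.Greedy

/-!
# The colouring lemma for circular-arc families

The points of the circle are the integers modulo `N`, the arc of `v` is `a v, a v + 1, .., a v + l v`.
`col_lemma`: if no three arcs cover the circle, `L` bounds the load and `c` arcs cross the edge `(N - 1, 0)`, then the
family can be coloured with `L + ⌈c / 2⌉` colours.
-/

set_option autoImplicit false

namespace Pool.Agent.Lib.MP_534936_co

open Finset

/-- the point `p` lies on the arc of `v` -/
def Mem {V : Type} (N : ℤ) (a l : V → ℤ) (v : V) (p : ℤ) : Prop := (p - a v) % N ≤ l v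

theorem mem_mod {V : Type} (N : ℤ) (a l : V → ℤ) (v : V) (p : ℤ) :
    Mem N a l v (p % N) ↔ Mem N a l v p := by
  unfold Mem
  rw [Int.emod_sub_emod p N (a v)]

theorem mem_norm {V : Type} {N : ℤ} {a l : V → ℤ} {v : V} {p : ℤ} (ha : 0 ≤ a v) (ha' : a v < N)
    (hp : 0 ≤ p) (hp' : p < N) :
    Mem N a l v p ↔ (a v ≤ p ∧ p ≤ a v + l v) ∨ (p < a v ∧ p + N ≤ a v + l v) := by
  unfold Mem
  rcases le_or_gt (a v) p with h | h
  · rw [Int.emod_eq_of_lt (by omega) (by omega)]
    omega
  · have e : (p - a v) % N = p - a v + N := by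
      have h1 := Int.add_emod_right (p - a v) N
      rw [← h1]
      exact Int.emod_eq_of_lt (by omega) (by omega)
    rw [e]
    omega

theorem exists_small {V : Type} (C : Finset V) (a : V → ℤ) (n : ℕ) (hn : n ≤ C.card) :
    ∃ A ⊆ C, A.card = n ∧ ∀ x ∈ A, ∀ y ∈ C, y ∉ A → a x ≤ a y := by
  classical
  induction n with
  | zero => exact ⟨∅, Finset.empty_subset _, rfl, fun x hx => absurd hx (Finset.notMem_empty x)⟩
  | succ n ih =>
    obtain ⟨A, hA, hc, hmin⟩ := ih (by omega)
    have hne : (C \ A).Nonempty := by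
      rw [← Finset.card_pos, Finset.card_sdiff_of_subset hA]
      omega
    obtain ⟨y0, hy0, hy1⟩ := Finset.exists_min_image (C \ A) a hne
    rw [Finset.mem_sdiff] at hy0
    refine ⟨insert y0 A, ?_, ?_, ?_⟩
    · intro x hx
      rcases Finset.mem_insert.1 hx with h | h
      · rw [h]
        exact hy0.1
      · exact hA h
    · rw [Finset.card_insert_of_notMem hy0.2, hc]
    · intro x hx y hy hyA
      rw [Finset.mem_insert, not_or] at hyA
      rcases Finset.mem_insert.1 hx with h | h
      · rw [h]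
        exact hy1 y (Finset.mem_sdiff.2 ⟨hy, hyA.2⟩)
      · exact hmin x h y hy hyA.2

theorem exists_idx {V : Type} (S : Finset V) :
    ∃ f : V → ℕ, (∀ u ∈ S, ∀ v ∈ S, f u = f v → u = v) ∧ ∀ v ∈ S, f v < S.card := by
  classical
  refine ⟨fun v => if h : v ∈ S then (S.equivFin ⟨v, h⟩ : ℕ) else 0, ?_, ?_⟩
  · intro u hu v hv h
    simp only [hu, hv, dif_pos] at h
    have h1 := S.equivFin.injective (Fin.ext h)
    exact congrArg Subtype.val h1
  · intro v hv
    simp only [hv, dif_pos]
    exact (S.equivFin ⟨v, hv⟩).2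

theorem exists_inj_of_card {V : Type} (X : Finset V) (Y : Finset ℕ) (h : X.card ≤ Y.card) :
    ∃ f : V → ℕ, (∀ u ∈ X, ∀ v ∈ X, f u = f v → u = v) ∧ ∀ v ∈ X, f v ∈ Y := by
  classical
  obtain ⟨φ⟩ := Function.Embedding.nonempty_of_card_le
    (α := {v // v ∈ X}) (β := {v // v ∈ Y}) (by rw [Fintype.card_coe, Fintype.card_coe]; exact h)
  refine ⟨fun v => if h : v ∈ X then (φ ⟨v, h⟩ : ℕ) else 0, ?_, ?_⟩
  · intro u hu v hv h
    simp only [hu, hv, dif_pos] at h
    have h1 := φ.injective (Subtype.ext h)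
    exact congrArg Subtype.val h1
  · intro v hv
    simp only [hv, dif_pos]
    exact (φ ⟨v, hv⟩).2

/-- the tracks: an `L`-colouring of the family which is cut at the edge `(N - 1, 0)` -/
theorem tracks {V : Type} [Fintype V] (N : ℤ) (a l : V → ℤ)
    (ha : ∀ v, 0 ≤ a v ∧ a v < N) (hl : ∀ v, 0 ≤ l v ∧ l v < N) (L : ℕ)
    (hL : ∀ p, 0 ≤ p → p < N → (fl Finset.univ (fun v => Mem N a l v p)).card ≤ L) :
    ∃ D S : V → ℕ, (∀ v, D v < L) ∧ (∀ v, N ≤ a v + l v → S v < L) ∧
      (∀ u v, u ≠ v → ∀ p, a u ≤ p → p ≤ a u + l u → a v ≤ p → p ≤ a v + l v → p < N → D u ≠ D v) ∧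
      (∀ u v, u ≠ v → N ≤ a u + l u → N ≤ a v + l v → S u ≠ S v) ∧
      (∀ u v, N ≤ a v + l v → ∀ p, a u ≤ p → p ≤ a u + l u → 0 ≤ p → p + N ≤ a v + l v →
        D u ≠ S v) := by
  classical
  obtain ⟨α, hα⟩ : ∃ α : V × Bool → ℤ, α = fun x => if x.2 then 0 else a x.1 := ⟨_, rfl⟩
  obtain ⟨ε, hε⟩ : ∃ ε : V × Bool → ℤ, ε = fun x => if x.2 then a x.1 + l x.1 - N else
      min (a x.1 + l x.1) (N - 1) := ⟨_, rfl⟩
  obtain ⟨T, hT⟩ : ∃ T : Finset (V × Bool), T = fl Finset.univ
      (fun x => x.2 = false ∨ N ≤ a x.1 + l x.1) := ⟨_, rfl⟩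
  have hα0 : ∀ v, α (v, false) = a v := fun v => by rw [hα]; rfl
  have hα1 : ∀ v, α (v, true) = 0 := fun v => by rw [hα]; rfl
  have hε0 : ∀ v, ε (v, false) = min (a v + l v) (N - 1) := fun v => by rw [hε]; rfl
  have hε1 : ∀ v, ε (v, true) = a v + l v - N := fun v => by rw [hε]; rfl
  have hT0 : ∀ v, (v, false) ∈ T := fun v => by
    rw [hT]
    exact mem_fl.2 ⟨Finset.mem_univ _, Or.inl rfl⟩
  have hT1 : ∀ v, (v, true) ∈ T ↔ N ≤ a v + l v := fun v => by
    rw [hT, mem_fl]
    simp
  obtain ⟨c, hc1, hc2⟩ := interval_col T α ε L (by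
    intro p
    by_cases hp : 0 ≤ p ∧ p < N
    · refine le_trans ?_ (hL p hp.1 hp.2)
      refine Finset.card_le_card_of_injOn (fun x : V × Bool => x.1) ?_ ?_
      · rintro ⟨v, b⟩ hx
        have hx' := mem_fl.1 (Finset.mem_coe.1 hx)
        have hv := ha v
        have hlv := hl v
        refine Finset.mem_coe.2 (mem_fl.2 ⟨Finset.mem_univ _, ?_⟩)
        rw [mem_norm hv.1 hv.2 hp.1 hp.2]
        cases b with
        | false =>
          rw [hα0, hε0] at hx'
          have h1 := hx'.2.1
          have h2 := le_trans hx'.2.2 (min_le_left _ _)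
          exact Or.inl ⟨h1, h2⟩
        | true =>
          rw [hα1, hε1] at hx'
          have h1 := hx'.2.1
          have h2 := hx'.2.2
          omega
      · rintro ⟨v, b⟩ hx ⟨v', b'⟩ hx' hvv
        have hx1 := mem_fl.1 (Finset.mem_coe.1 hx)
        have hx2 := mem_fl.1 (Finset.mem_coe.1 hx')
        have hvv' : v = v' := hvv
        subst hvv'
        have hlv := hl v
        cases b <;> cases b'
        · rfl
        · exfalso
          rw [hα0] at hx1
          rw [hε1] at hx2
          have h1 := hx1.2.1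
          have h2 := hx2.2.2
          omega
        · exfalso
          rw [hα0] at hx2
          rw [hε1] at hx1
          have h1 := hx2.2.1
          have h2 := hx1.2.2
          omega
        · rfl
    · have h0 : fl T (fun u => α u ≤ p ∧ p ≤ ε u) = ∅ := by
        rw [Finset.eq_empty_iff_forall_notMem]
        rintro ⟨v, b⟩ hx
        have hx' := mem_fl.1 hx
        have hv := ha v
        have hlv := hl v
        cases b with
        | false =>
          rw [hα0, hε0] at hx'
          have h1 := hx'.2.1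
          have h2 := le_trans hx'.2.2 (min_le_right _ _)
          omega
        | true =>
          rw [hα1, hε1] at hx'
          have h1 := hx'.2.1
          have h2 := hx'.2.2
          omega
      rw [h0, Finset.card_empty]
      exact Nat.zero_le L) (by
    rintro ⟨v, b⟩ hx
    have hv := ha v
    have hlv := hl v
    cases b with
    | false =>
      rw [hα0, hε0]
      exact le_min (by omega) (by omega)
    | true =>
      rw [hα1, hε1]
      have := (hT1 v).1 hx
      omega)
  refine ⟨fun v => c (v, false), fun v => c (v, true), fun v => hc1 _ (hT0 v),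
    fun v hv => hc1 _ ((hT1 v).2 hv), ?_, ?_, ?_⟩
  · intro u v huv p h1 h2 h3 h4 h5
    refine hc2 _ (hT0 u) _ (hT0 v) (fun h => huv (congrArg Prod.fst h)) ?_ ?_
    · rw [hα0, hε0]
      exact le_min (by omega) (by omega)
    · rw [hα0, hε0]
      exact le_min (by omega) (by omega)
  · intro u v huv h1 h2
    refine hc2 _ ((hT1 u).2 h1) _ ((hT1 v).2 h2) (fun h => huv (congrArg Prod.fst h)) ?_ ?_
    · rw [hα1, hε1]
      omega
    · rw [hα1, hε1]
      omega
  · intro u v hv p h1 h2 h3 h4
    have hu := ha u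
    have hlv := hl v
    have hav := ha v
    refine hc2 _ (hT0 u) _ ((hT1 v).2 hv) (fun h => ?_) ?_ ?_
    · have := congrArg Prod.snd h
      simp at this
    · rw [hα0, hε1]
      omega
    · rw [hα1, hε0]
      exact le_min (by omega) (by omega)

end Pool.Agent.Lib.MP_534936_co
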