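import Pool.Agent.Lib.MP_534936_co.Col

/-!
# The colouring lemma, main part

If no three arcs cover the circle, `L` bounds the load and `c` arcs cross the edge `(N - 1, 0)`, then the family can be
coloured with `L + ⌈c / 2⌉` colours.
-/

set_option autoImplicit false

namespace Pool.Agent.Lib.MP_534936_co

open Finset

theorem exists_inj_self {V : Type} (X Y : Finset V) (h : X.card ≤ Y.card) :
    ∃ f : V → V, (∀ u ∈ X, ∀ v ∈ X, f u = f v → u = v) ∧ ∀ v ∈ X, f v ∈ Y := by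
  classical
  obtain ⟨φ⟩ := Function.Embedding.nonempty_of_card_le
    (α := {v // v ∈ X}) (β := {v // v ∈ Y}) (by rw [Fintype.card_coe, Fintype.card_coe]; exact h)
  refine ⟨fun v => if h : v ∈ X then (φ ⟨v, h⟩ : V) else v, ?_, ?_⟩
  · intro u hu v hv h
    simp only [hu, hv, dif_pos] at h
    have h1 := φ.injective (Subtype.ext h)
    exact congrArg Subtype.val h1
  · intro v hv
    simp only [hv, dif_pos]
    exact (φ ⟨v, hv⟩).2

/-- the partners of the unmatched arcs -/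
theorem exists_partner {V : Type} (C CD : Finset V) (D S : V → ℕ) (hCD : CD ⊆ C)
    (hcard : C.card ≤ 2 * CD.card)
    (hD : ∀ u ∈ C, ∀ v ∈ C, D u = D v → u = v) (hS : ∀ u ∈ C, ∀ v ∈ C, S u = S v → u = v) :
    ∃ π : V → V, ∀ b' ∈ C, b' ∉ CD → (∀ b ∈ CD, D b ≠ S b') →
      (π b' ∈ CD ∧ (∀ b'' ∈ C, b'' ∉ CD → D (π b') ≠ S b'') ∧
        ∀ b'' ∈ C, b'' ∉ CD → (∀ b ∈ CD, D b ≠ S b'') → π b' = π b'' → b' = b'') := by
  classical
  obtain ⟨CS, hCS⟩ : ∃ CS : Finset V, CS = C \ CD := ⟨_, rfl⟩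
  have hCSC : ∀ v ∈ CS, v ∈ C := fun v hv => by
    rw [hCS] at hv
    exact (Finset.mem_sdiff.1 hv).1
  have hc0 : CS.card ≤ CD.card := by
    rw [hCS, Finset.card_sdiff_of_subset hCD]
    omega
  obtain ⟨X, hX⟩ : ∃ X : Finset V, X = fl CS (fun b' => ∀ b ∈ CD, D b ≠ S b') := ⟨_, rfl⟩
  obtain ⟨Y, hY⟩ : ∃ Y : Finset V, Y = fl CD (fun b => ∀ b' ∈ CS, D b ≠ S b') := ⟨_, rfl⟩
  have hXY : X.card ≤ Y.card := by
    have h1 : (CS.image S).card = CS.card :=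
      Finset.card_image_of_injOn fun u hu v hv h => hS u (hCSC u hu) v (hCSC v hv) h
    have h2 : (CD.image D).card = CD.card :=
      Finset.card_image_of_injOn fun u hu v hv h => hD u (hCD hu) v (hCD hv) h
    have h3 : (X.image S).card = X.card := by
      refine Finset.card_image_of_injOn fun u hu v hv h => ?_
      rw [hX] at hu hv
      exact hS u (hCSC u (mem_fl.1 (Finset.mem_coe.1 hu)).1) v
        (hCSC v (mem_fl.1 (Finset.mem_coe.1 hv)).1) h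
    have h4 : (Y.image D).card = Y.card := by
      refine Finset.card_image_of_injOn fun u hu v hv h => ?_
      rw [hY] at hu hv
      exact hD u (hCD (mem_fl.1 (Finset.mem_coe.1 hu)).1) v
        (hCD (mem_fl.1 (Finset.mem_coe.1 hv)).1) h
    have h5 : X.image S = CS.image S \ CD.image D := by
      ext x
      rw [Finset.mem_image, Finset.mem_sdiff, Finset.mem_image, Finset.mem_image]
      constructor
      · rintro ⟨v, hv, rfl⟩
        rw [hX, mem_fl] at hv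
        refine ⟨⟨v, hv.1, rfl⟩, ?_⟩
        rintro ⟨b, hb, hbv⟩
        exact hv.2 b hb hbv
      · rintro ⟨⟨v, hv, rfl⟩, hn⟩
        refine ⟨v, ?_, rfl⟩
        rw [hX, mem_fl]
        exact ⟨hv, fun b hb hbv => hn ⟨b, hb, hbv⟩⟩
    have h6 : Y.image D = CD.image D \ CS.image S := by
      ext x
      rw [Finset.mem_image, Finset.mem_sdiff, Finset.mem_image, Finset.mem_image]
      constructor
      · rintro ⟨v, hv, rfl⟩
        rw [hY, mem_fl] at hv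
        refine ⟨⟨v, hv.1, rfl⟩, ?_⟩
        rintro ⟨b, hb, hbv⟩
        exact hv.2 b hb hbv.symm
      · rintro ⟨⟨v, hv, rfl⟩, hn⟩
        refine ⟨v, ?_, rfl⟩
        rw [hY, mem_fl]
        exact ⟨hv, fun b hb hbv => hn ⟨b, hb, hbv.symm⟩⟩
    rw [← h3, ← h4, h5, h6]
    have h7 := Finset.card_sdiff_add_card_inter (CS.image S) (CD.image D)
    have h8 := Finset.card_sdiff_add_card_inter (CD.image D) (CS.image S)
    rw [Finset.inter_comm] at h8
    omega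
  obtain ⟨π, h1, h2⟩ := exists_inj_self X Y hXY
  have hXm : ∀ b' ∈ C, b' ∉ CD → (∀ b ∈ CD, D b ≠ S b') → b' ∈ X := by
    intro b' h3 h4 h5
    rw [hX, mem_fl, hCS, Finset.mem_sdiff]
    exact ⟨⟨h3, h4⟩, h5⟩
  refine ⟨π, ?_⟩
  intro b' h3 h4 h5
  have h6 := h2 b' (hXm b' h3 h4 h5)
  rw [hY, mem_fl] at h6
  refine ⟨h6.1, ?_, ?_⟩
  · intro b'' h7 h8
    refine h6.2 b'' ?_
    rw [hCS, Finset.mem_sdiff]
    exact ⟨h7, h8⟩
  · intro b'' h7 h8 h9 h10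
    exact h1 b' (hXm b' h3 h4 h5) b'' (hXm b'' h7 h8 h9) h10

/-- **Colouring lemma**: if no three arcs cover the circle, then `L + ⌈c / 2⌉` colours suffice, where `c` is the
number of arcs over the edge `(N - 1, 0)`. -/
theorem col_lemma {V : Type} [Fintype V] (N : ℤ) (hN : 0 < N) (a l : V → ℤ)
    (ha : ∀ v, 0 ≤ a v ∧ a v < N) (hl : ∀ v, 0 ≤ l v ∧ l v < N) (L : ℕ)
    (hL : ∀ p, 0 ≤ p → p < N → (fl Finset.univ (fun v => Mem N a l v p)).card ≤ L)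
    (h3 : ∀ u₁ u₂ u₃ : V, ∃ p, ¬ Mem N a l u₁ p ∧ ¬ Mem N a l u₂ p ∧ ¬ Mem N a l u₃ p) :
    ∃ c : V → ℕ, (∀ v, c v < L + ((fl Finset.univ (fun v => N ≤ a v + l v)).card + 1) / 2) ∧
      ∀ u v, u ≠ v → (∃ p, Mem N a l u p ∧ Mem N a l v p) → c u ≠ c v := by
  classical
  obtain ⟨D, S, hDL, hSL, hDD, hSS, hDS⟩ := tracks N a l ha hl L hL
  obtain ⟨C, hC⟩ : ∃ C : Finset V, C = fl Finset.univ (fun v => N ≤ a v + l v) := ⟨_, rfl⟩
  have hCm : ∀ v, v ∈ C ↔ N ≤ a v + l v := fun v => by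
    rw [hC, mem_fl]
    simp
  rw [← hC]
  obtain ⟨CD, hCDC, hCDc, hCDmin⟩ := exists_small C a ((C.card + 1) / 2) (by omega)
  have hDC : ∀ u ∈ C, ∀ v ∈ C, D u = D v → u = v := by
    intro u hu v hv huv
    by_contra hne
    have h1 := (hCm u).1 hu
    have h2 := (hCm v).1 hv
    have h3 := ha u
    have h4 := ha v
    have h5 := hl u
    have h6 := hl v
    exact hDD u v hne (N - 1) (by omega) (by omega) (by omega) (by omega) (by omega) huv
  have hSC : ∀ u ∈ C, ∀ v ∈ C, S u = S v → u = v := by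
    intro u hu v hv huv
    by_contra hne
    exact hSS u v hne ((hCm u).1 hu) ((hCm v).1 hv) huv
  obtain ⟨π, hπ⟩ := exists_partner C CD D S hCDC (by rw [hCDc]; omega) hDC hSC
  obtain ⟨ι, hι1, hι2⟩ := exists_idx CD
  rw [hCDc] at hι2
  -- meeting arcs have a common point in [0, N)
  obtain ⟨M, hM⟩ : ∃ M : V → V → Prop, M = fun u v => ∃ p, Mem N a l u p ∧ Mem N a l v p := ⟨_, rfl⟩
  have hMp : ∀ u v, M u v → ∃ p, 0 ≤ p ∧ p < N ∧ Mem N a l u p ∧ Mem N a l v p := by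
    intro u v h
    rw [hM] at h
    obtain ⟨p, h1, h2⟩ := h
    exact ⟨p % N, Int.emod_nonneg p hN.ne', Int.emod_lt_of_pos p hN, (mem_mod N a l u p).2 h1,
      (mem_mod N a l v p).2 h2⟩
  have hMs : ∀ u v, M u v → M v u := by
    intro u v h
    rw [hM] at h ⊢
    obtain ⟨p, h1, h2⟩ := h
    exact ⟨p, h2, h1⟩
  have hnC : ∀ v, v ∉ C → ∀ p, 0 ≤ p → p < N → Mem N a l v p → a v ≤ p ∧ p ≤ a v + l v := by
    intro v hv p hp hp' hm
    rw [mem_norm (ha v).1 (ha v).2 hp hp'] at hm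
    rw [hCm] at hv
    rcases hm with h | h
    · exact h
    · omega
  have hyC : ∀ v, v ∈ C → ∀ p, 0 ≤ p → p < N → Mem N a l v p → a v ≤ p ∨ p + N ≤ a v + l v := by
    intro v hv p hp hp' hm
    rw [mem_norm (ha v).1 (ha v).2 hp hp'] at hm
    rcases hm with h | h
    · exact Or.inl h.1
    · exact Or.inr h.2
  -- plain tracks
  have k0 : ∀ u v, u ∉ C → v ∉ C → u ≠ v → M u v → D u ≠ D v := by
    intro u v hu hv huv h
    obtain ⟨p, h1, h2, h3, h4⟩ := hMp u v h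
    obtain ⟨h5, h6⟩ := hnC u hu p h1 h2 h3
    obtain ⟨h7, h8⟩ := hnC v hv p h1 h2 h4
    exact hDD u v huv p h5 h6 h7 h8 h2
  -- an arc on the right track of b meets b only on the left
  have k1 : ∀ u b, u ∉ C → b ∈ C → D u = S b → M u b →
      ∃ p, a u ≤ p ∧ p ≤ a u + l u ∧ 0 ≤ p ∧ p < N ∧ a b ≤ p := by
    intro u b hu hb hD' h
    obtain ⟨p, h1, h2, h3, h4⟩ := hMp u b h
    obtain ⟨h5, h6⟩ := hnC u hu p h1 h2 h3
    rcases hyC b hb p h1 h2 h4 with h7 | h7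
    · exact ⟨p, h5, h6, h1, h2, h7⟩
    · exact absurd hD' (hDS u b ((hCm b).1 hb) p h5 h6 h1 h7)
  -- an arc on the left track of b meets b only on the right
  have k2 : ∀ u b, u ∉ C → b ∈ C → D u = D b → M u b → a u + N ≤ a b + l b := by
    intro u b hu hb hD' h
    obtain ⟨p, h1, h2, h3, h4⟩ := hMp u b h
    obtain ⟨h5, h6⟩ := hnC u hu p h1 h2 h3
    rcases hyC b hb p h1 h2 h4 with h7 | h7
    · exfalso
      have h9 := (hCm b).1 hb
      exact hDD u b (fun he => hu (he ▸ hb)) p h5 h6 h7 (by omega) h2 hD'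
    · omega
  -- a matched arc of the second kind is not met by its track
  have k1' : ∀ u b b', u ∉ C → b ∈ CD → b' ∈ C → b' ∉ CD → D b = S b' → D u = S b' → M u b' →
      False := by
    intro u b b' hu hb hb' hbD hm hD' h
    obtain ⟨p, h5, h6, h1, h2, h7⟩ := k1 u b' hu hb' hD' h
    have h8 := hCDmin b hb b' hb' hbD
    have h9 := (hCm b).1 (hCDC hb)
    exact hDD u b (fun he => hu (he ▸ hCDC hb)) p h5 h6 (by omega) (by omega) h2
      (hD'.trans hm.symm)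
  -- three arcs cover
  have k3 : ∀ t t' b b', t ∉ C → t' ∉ C → b ∈ C → a b ≤ b' → b' ≤ a t + l t →
      a t' + N ≤ a b + l b → ¬ M t t' := by
    intro t t' b b' ht ht' hb h0 h1 h2 h
    obtain ⟨p0, q1, q2, q3, q4⟩ := hMp t t' h
    obtain ⟨q5, q6⟩ := hnC t ht p0 q1 q2 q3
    obtain ⟨q7, q8⟩ := hnC t' ht' p0 q1 q2 q4
    obtain ⟨p, n1, n2, n3⟩ := h3 t t' b
    rw [← mem_mod] at n1 n2 n3
    have r1 := Int.emod_nonneg p hN.ne'
    have r2 := Int.emod_lt_of_pos p hN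
    rw [mem_norm (ha _).1 (ha _).2 r1 r2] at n1 n2 n3
    have e1 := (hCm b).1 hb
    have e3 := ha t
    have e4 := ha t'
    have e5 := ha b
    have e7 := hl b
    omega
  -- the colouring
  obtain ⟨P2, hP2⟩ : ∃ P2 : V → Prop, P2 = fun b => b ∈ CD ∧ ∀ b' ∈ C, b' ∉ CD → D b ≠ S b' :=
    ⟨_, rfl⟩
  have hex : ∀ v, ∃ x : ℕ, (v ∈ C ∧ v ∉ CD ∧ x = S v) ∨ (P2 v ∧ x = D v) ∨
      (v ∈ CD ∧ ¬ P2 v ∧ x = L + ι v) ∨
      (v ∉ C ∧ (∃ b' ∈ C, b' ∉ CD ∧ (∀ b ∈ CD, D b ≠ S b') ∧ D v = S b' ∧ M v b' ∧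
        x = L + ι (π b'))) ∨
      (v ∉ C ∧ (∃ b, P2 b ∧ D v = D b ∧ M v b ∧ x = L + ι b)) ∨
      (v ∉ C ∧ (∀ b' ∈ C, b' ∉ CD → ¬ (D v = S b' ∧ M v b')) ∧
        (∀ b, P2 b → ¬ (D v = D b ∧ M v b)) ∧ x = D v) := by
    intro v
    by_cases hv : v ∈ C
    · by_cases hv2 : v ∈ CD
      · by_cases hv3 : P2 v
        · exact ⟨D v, Or.inr (Or.inl ⟨hv3, rfl⟩)⟩
        · exact ⟨L + ι v, Or.inr (Or.inr (Or.inl ⟨hv2, hv3, rfl⟩))⟩
      · exact ⟨S v, Or.inl ⟨hv, hv2, rfl⟩⟩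
    · by_cases h1 : ∃ b' ∈ C, b' ∉ CD ∧ D v = S b' ∧ M v b'
      · obtain ⟨b', hb', hb'2, h2, h3⟩ := h1
        refine ⟨L + ι (π b'), Or.inr (Or.inr (Or.inr (Or.inl ⟨hv, b', hb', hb'2, ?_, h2, h3, rfl⟩)))⟩
        intro b hb hm
        exact k1' v b b' hv hb hb' hb'2 hm h2 h3
      · by_cases h2 : ∃ b, P2 b ∧ D v = D b ∧ M v b
        · obtain ⟨b, hb, h3, h4⟩ := h2
          exact ⟨L + ι b, Or.inr (Or.inr (Or.inr (Or.inr (Or.inl ⟨hv, b, hb, h3, h4, rfl⟩))))⟩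
        · refine ⟨D v, Or.inr (Or.inr (Or.inr (Or.inr (Or.inr ⟨hv, ?_, ?_, rfl⟩))))⟩
          · intro b' hb' hb'2 h3
            exact h1 ⟨b', hb', hb'2, h3⟩
          · intro b hb h3
            exact h2 ⟨b, hb, h3⟩
  choose κ hκ using hex
  have hP2m : ∀ b, P2 b → b ∈ CD := fun b hb => by
    rw [hP2] at hb
    exact hb.1
  have hP2n : ∀ b, P2 b → ∀ b' ∈ C, b' ∉ CD → D b ≠ S b' := fun b hb => by
    rw [hP2] at hb
    exact hb.2
  have hπ2 : ∀ b' ∈ C, b' ∉ CD → (∀ b ∈ CD, D b ≠ S b') → P2 (π b') := by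
    intro b' h1 h2 h3
    rw [hP2]
    exact ⟨(hπ b' h1 h2 h3).1, (hπ b' h1 h2 h3).2.1⟩
  refine ⟨κ, ?_, ?_⟩
  · intro v
    rcases hκ v with ⟨h1, h2, h3⟩ | ⟨h1, h2⟩ | ⟨h1, h2, h3⟩ | ⟨h1, b, hb, hb2, hb3, h2, h3, h4⟩ |
      ⟨h1, b, hb, h2, h3, h4⟩ | ⟨h1, h2, h3, h4⟩
    · have := hSL v ((hCm v).1 h1)
      omega
    · have := hDL v
      omega
    · have := hι2 v h1
      omega
    · have := hι2 _ (hP2m _ (hπ2 b hb hb2 hb3))
      omega
    · have := hι2 _ (hP2m _ hb)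
      omega
    · have := hDL v
      omega
  · have key : ∀ u v, u ≠ v → M u v → κ u = κ v → u ∈ C → False := by
      intro u v huv hMuv he huC
      rcases hκ u with ⟨-, u2, u3⟩ | ⟨u1, u2⟩ | ⟨u1, u2, u3⟩ | ⟨u1, -⟩ | ⟨u1, -⟩ | ⟨u1, -⟩
      · have hu := hSL u ((hCm u).1 huC)
        rcases hκ v with ⟨h1, h2, h3⟩ | ⟨h1, h2⟩ | ⟨h1, h2, h3⟩ |
          ⟨h1, b, hb, hb2, hb3, h2, h3, h4⟩ | ⟨h1, b, hb, h2, h3, h4⟩ | ⟨h1, h2, h3, h4⟩
        · exact huv (hSC u huC v h1 (by omega))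
        · exact hP2n v h1 u huC u2 (by omega)
        · omega
        · omega
        · omega
        · exact h2 u huC u2 ⟨by omega, hMs _ _ hMuv⟩
      · have hu := hDL u
        rcases hκ v with ⟨h1, h2, h3⟩ | ⟨h1, h2⟩ | ⟨h1, h2, h3⟩ |
          ⟨h1, b, hb, hb2, hb3, h2, h3, h4⟩ | ⟨h1, b, hb, h2, h3, h4⟩ | ⟨h1, h2, h3, h4⟩
        · exact hP2n u u1 v h1 h2 (by omega)
        · exact huv (hDC u huC v (hCDC (hP2m v h1)) (by omega))
        · omega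
        · omega
        · omega
        · exact h3 u u1 ⟨by omega, hMs _ _ hMuv⟩
      · rcases hκ v with ⟨h1, h2, h3⟩ | ⟨h1, h2⟩ | ⟨h1, h2, h3⟩ |
          ⟨h1, b, hb, hb2, hb3, h2, h3, h4⟩ | ⟨h1, b, hb, h2, h3, h4⟩ | ⟨h1, h2, h3, h4⟩
        · have := hSL v ((hCm v).1 h1)
          omega
        · have := hDL v
          omega
        · exact huv (hι1 u u1 v h1 (by omega))
        · have h5 := hπ2 b hb hb2 hb3
          have h6 := hι1 u u1 _ (hP2m _ h5) (by omega)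
          exact u2 (h6 ▸ h5)
        · have h6 := hι1 u u1 _ (hP2m _ hb) (by omega)
          exact u2 (h6 ▸ hb)
        · have := hDL v
          omega
      · exact u1 huC
      · exact u1 huC
      · exact u1 huC
    -- repaired on the left and repaired on the right
    have key2 : ∀ u v b b', u ∉ C → v ∉ C → b' ∈ C → b' ∉ CD → (∀ b ∈ CD, D b ≠ S b') →
        D u = S b' → M u b' → P2 b → D v = D b → M v b → ι (π b') = ι b → M u v → False := by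
      intro u v b b' hu hv hb' hb'2 hb'3 h1 h2 hb h3 h4 h5 h6
      have h7 := hι1 _ (hP2m _ (hπ2 b' hb' hb'2 hb'3)) _ (hP2m _ hb) h5
      obtain ⟨p, p1, p2, p3, p4, p5⟩ := k1 u b' hu hb' h1 h2
      exact k3 u v b p hu hv (hCDC (hP2m _ hb)) (le_trans (hCDmin b (hP2m _ hb) b' hb' hb'2) p5) p2
        (k2 v b hv (hCDC (hP2m _ hb)) h3 h4) h6
    intro u v huv hMuv he
    have hM1 : M u v := by rw [hM]; exact hMuv
    by_cases huC : u ∈ C
    · exact key u v huv hM1 he huC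
    by_cases hvC : v ∈ C
    · exact key v u huv.symm (hMs _ _ hM1) he.symm hvC
    rcases hκ u with ⟨h1, -⟩ | ⟨h1, -⟩ | ⟨h1, -⟩ |
      ⟨-, b, hb, hb2, hb3, h2, h3, h4⟩ | ⟨-, b, hb, h2, h3, h4⟩ | ⟨-, h2, h3, h4⟩
    · exact huC h1
    · exact huC (hCDC (hP2m _ h1))
    · exact huC (hCDC h1)
    · rcases hκ v with ⟨h1, -⟩ | ⟨h1, -⟩ | ⟨h1, -⟩ |
        ⟨-, b', hb', hb'2, hb'3, h2', h3', h4'⟩ | ⟨-, b', hb', h2', h3', h4'⟩ | ⟨-, h2', h3', h4'⟩
      · exact hvC h1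
      · exact hvC (hCDC (hP2m _ h1))
      · exact hvC (hCDC h1)
      · have h5 := hι1 _ (hP2m _ (hπ2 b hb hb2 hb3)) _ (hP2m _ (hπ2 b' hb' hb'2 hb'3)) (by omega)
        have h6 := (hπ b hb hb2 hb3).2.2 b' hb' hb'2 hb'3 h5
        refine k0 u v huC hvC huv hM1 ?_
        rw [h2, h2', h6]
      · exact key2 u v b' b huC hvC hb hb2 hb3 h2 h3 hb' h2' h3' (by omega) hM1
      · have := hDL v
        omega
    · rcases hκ v with ⟨h1, -⟩ | ⟨h1, -⟩ | ⟨h1, -⟩ |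
        ⟨-, b', hb', hb'2, hb'3, h2', h3', h4'⟩ | ⟨-, b', hb', h2', h3', h4'⟩ | ⟨-, h2', h3', h4'⟩
      · exact hvC h1
      · exact hvC (hCDC (hP2m _ h1))
      · exact hvC (hCDC h1)
      · exact key2 v u b b' hvC huC hb' hb'2 hb'3 h2' h3' hb h2 h3 (by omega) (hMs _ _ hM1)
      · have h5 := hι1 _ (hP2m _ hb) _ (hP2m _ hb') (by omega)
        refine k0 u v huC hvC huv hM1 ?_
        rw [h2, h2', h5]
      · have := hDL v
        omega
    · rcases hκ v with ⟨h1, -⟩ | ⟨h1, -⟩ | ⟨h1, -⟩ |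
        ⟨-, b', hb', hb'2, hb'3, h2', h3', h4'⟩ | ⟨-, b', hb', h2', h3', h4'⟩ | ⟨-, h2', h3', h4'⟩
      · exact hvC h1
      · exact hvC (hCDC (hP2m _ h1))
      · exact hvC (hCDC h1)
      · have := hDL u
        omega
      · have := hDL u
        omega
      · exact k0 u v huC hvC huv hM1 (by omega)

end Pool.Agent.Lib.MP_534936_co
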