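import Pool.Agent.Lib.MP_534936_co.Greedy

/-!
# Critical graphs: small cuts beside a clique

`n` colours, `n + 1 = L + m`. If `G` is not `n`-colourable but `G - I` is, and the set `I` can be coloured greedily
with `L` colours outside `K`, then `m ≤ |K|`.
-/

set_option autoImplicit false

namespace Pool.Agent.Lib.MP_534936_co

open Finset

theorem crit_lemma {V : Type} [Fintype V] (G : SimpleGraph V) (n L m : ℕ) (hn : n + 1 = L + m)
    (I K Q : Finset V) (key : V → ℤ)
    (hcol : ∃ c : V → ℕ, (∀ v, v ∉ I → c v < n) ∧ ∀ u v, u ∉ I → v ∉ I → G.Adj u v → c u ≠ c v)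
    (hno : ¬ ∃ c : V → ℕ, (∀ v, c v < n) ∧ ∀ u v, G.Adj u v → c u ≠ c v)
    (hnb : ∀ t ∈ I, ∀ u, G.Adj t u → u ∈ I ∨ u ∈ K ∨ u ∈ Q)
    (hcnt : ∀ t ∈ I, (fl Finset.univ (fun u => (u ∈ Q ∨ (u ∈ I ∧ key u ≤ key t)) ∧ G.Adj t u)).card <
      L) : m ≤ K.card := by
  classical
  by_contra hK
  push Not at hK
  obtain ⟨c, hc1, hc2⟩ := hcol
  obtain ⟨P, hP⟩ : ∃ P : Finset ℕ, P = Finset.range n \ K.image c := ⟨_, rfl⟩
  have hPc : L ≤ P.card := by
    rw [hP]
    have h1 := Finset.le_card_sdiff (K.image c) (Finset.range n)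
    have h2 := Finset.card_image_le (s := K) (f := c)
    rw [Finset.card_range] at h1
    omega
  obtain ⟨c', h1, h2, h3⟩ := greedy_ext (fun u v => G.Adj u v) (fun u v h => h.symm)
    (fun v h => G.loopless.irrefl v h) key P I.card I (Finset.univ \ I) c rfl
    Finset.sdiff_disjoint (by
      intro u hu v hv huv
      exact hc2 u v (Finset.mem_sdiff.1 hu).2 (Finset.mem_sdiff.1 hv).2 huv) (by
      intro t ht
      refine lt_of_lt_of_le (lt_of_le_of_lt ?_ (hcnt t ht)) hPc
      rw [← Finset.card_union_of_disjoint]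
      · refine Finset.card_le_card ?_
        intro u hu
        rw [mem_fl]
        refine ⟨Finset.mem_univ u, ?_⟩
        rcases Finset.mem_union.1 hu with h | h
        · rw [mem_fl, Finset.mem_sdiff] at h
          obtain ⟨⟨-, h4⟩, h5, h6⟩ := h
          rcases hnb t ht u h5 with h7 | h7 | h7
          · exact absurd h7 h4
          · exfalso
            rw [hP, Finset.mem_sdiff] at h6
            exact h6.2 (Finset.mem_image_of_mem c h7)
          · exact ⟨Or.inl h7, h5⟩
        · rw [mem_fl] at h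
          exact ⟨Or.inr ⟨h.1, h.2.2⟩, h.2.1⟩
      · rw [Finset.disjoint_left]
        intro u hu hu'
        exact (Finset.mem_sdiff.1 (mem_fl.1 hu).1).2 (mem_fl.1 hu').1)
  refine hno ⟨c', ?_, ?_⟩
  · intro v
    by_cases hv : v ∈ I
    · have := h3 v hv
      rw [hP, Finset.mem_sdiff, Finset.mem_range] at this
      exact this.1
    · rw [h2 v (Finset.mem_sdiff.2 ⟨Finset.mem_univ v, hv⟩)]
      exact hc1 v hv
  · intro u v huv
    have hall : ∀ w : V, w ∈ (Finset.univ \ I) ∪ I := by
      intro w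
      by_cases hw : w ∈ I
      · exact Finset.mem_union_right _ hw
      · exact Finset.mem_union_left _ (Finset.mem_sdiff.2 ⟨Finset.mem_univ w, hw⟩)
    exact h1 u (hall u) v (hall v) huv

/-- the degrees in a critical graph -/
theorem crit_deg {V : Type} [Fintype V] (G : SimpleGraph V) (n : ℕ) (q : V)
    (hcol : ∃ c : V → ℕ, (∀ v, v ≠ q → c v < n) ∧ ∀ u v, u ≠ q → v ≠ q → G.Adj u v → c u ≠ c v)
    (hno : ¬ ∃ c : V → ℕ, (∀ v, c v < n) ∧ ∀ u v, G.Adj u v → c u ≠ c v) :
    n ≤ (fl Finset.univ (fun u => G.Adj q u)).card := by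
  classical
  by_contra hlt
  push Not at hlt
  have h := crit_lemma G n n 1 rfl {q} ∅ (fl Finset.univ (fun u => G.Adj q u)) (fun _ => 0) (by
      obtain ⟨c, h1, h2⟩ := hcol
      refine ⟨c, ?_, ?_⟩
      · intro v hv
        exact h1 v (fun h => hv (Finset.mem_singleton.2 h))
      · intro u v hu hv huv
        exact h2 u v (fun h => hu (Finset.mem_singleton.2 h))
          (fun h => hv (Finset.mem_singleton.2 h)) huv) hno (by
      intro t ht u htu
      rw [Finset.mem_singleton] at ht
      right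
      right
      rw [mem_fl]
      exact ⟨Finset.mem_univ u, ht ▸ htu⟩) (by
      intro t ht
      rw [Finset.mem_singleton] at ht
      refine lt_of_le_of_lt (Finset.card_le_card ?_) hlt
      intro u hu
      rw [mem_fl] at hu ⊢
      exact ⟨Finset.mem_univ u, ht ▸ hu.2.2⟩)
  rw [Finset.card_empty] at h
  omega

end Pool.Agent.Lib.MP_534936_co
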