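import Pool.Agent.Lib.MP_534936_co.Bounds

/-!
# The minor in a critical normalised family
-/

set_option autoImplicit false

namespace Pool.Agent.Lib.MP_534936_co

open Finset

theorem main_crit {V : Type} [Fintype V] (N : ℤ) (hN : 0 < N) (a l : V → ℤ)
    (ha : ∀ v, 0 ≤ a v ∧ a v < N) (hl : ∀ v, 0 ≤ l v ∧ l v < N)
    (h3 : ∀ u₁ u₂ u₃ : V, ∃ p, ¬ Mem N a l u₁ p ∧ ¬ Mem N a l u₂ p ∧ ¬ Mem N a l u₃ p)
    (G : SimpleGraph V) (hG : ∀ u v, G.Adj u v ↔ u ≠ v ∧ ∃ p, Mem N a l u p ∧ Mem N a l v p)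
    (L n : ℕ)
    (hL : ∀ p, (fl Finset.univ (fun v => Mem N a l v p)).card ≤ L)
    (hL0 : (fl Finset.univ (fun v => Mem N a l v 0)).card = L)
    (hcrit : ∀ q, ∃ c : V → ℕ, (∀ v, v ≠ q → c v < n) ∧
      ∀ u v, u ≠ q → v ≠ q → G.Adj u v → c u ≠ c v)
    (hno : ¬ ∃ c : V → ℕ, (∀ v, c v < n) ∧ ∀ u v, G.Adj u v → c u ≠ c v) :
    HasMinor G (n + 1) := by
  classical
  obtain ⟨H, hH⟩ : ∃ H : Finset V, H = fl Finset.univ (fun v => ¬ Mem N a l v 0) := ⟨_, rfl⟩
  obtain ⟨Q, hQ⟩ : ∃ Q : Finset V, Q = fl Finset.univ (fun v => Mem N a l v 0) := ⟨_, rfl⟩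
  have hmH : ∀ v, v ∈ H ↔ ¬ Mem N a l v 0 := fun v => by
    rw [hH, mem_fl]
    simp
  have hmQ : ∀ v, v ∈ Q ↔ Mem N a l v 0 := fun v => by
    rw [hQ, mem_fl]
    simp
  have hQL : Q.card = L := by rw [hQ, hL0]
  have hQQ : ∀ u ∈ Q, ∀ v ∈ Q, u ≠ v → G.Adj u v := by
    intro u hu v hv huv
    exact (hG u v).2 ⟨huv, 0, (hmQ u).1 hu, (hmQ v).1 hv⟩
  by_cases hcase : n + 1 ≤ L
  · exact hasMinor_of_clique G (n + 1) Q (by rw [hQL]; exact hcase) hQQ
  obtain ⟨m, hm⟩ : ∃ m : ℕ, n + 1 = L + m := ⟨n + 1 - L, by omega⟩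
  have hm1 : 1 ≤ m := by omega
  -- the load is positive
  have hLpos : 1 ≤ L := by
    by_contra hL1
    apply hno
    refine ⟨fun _ => 0, ?_, ?_⟩
    · intro v
      exfalso
      have h1 : 0 < (fl Finset.univ (fun u => Mem N a l u (a v))).card := by
        refine Finset.card_pos.2 ⟨v, mem_fl.2 ⟨Finset.mem_univ v, ?_⟩⟩
        unfold Mem
        rw [sub_self, Int.zero_emod]
        exact (hl v).1
      have h2 := hL (a v)
      omega
    · intro u v huv
      exfalso
      have h1 : 0 < (fl Finset.univ (fun w => Mem N a l w (a v))).card := by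
        refine Finset.card_pos.2 ⟨v, mem_fl.2 ⟨Finset.mem_univ v, ?_⟩⟩
        unfold Mem
        rw [sub_self, Int.zero_emod]
        exact (hl v).1
      have h2 := hL (a v)
      omega
  have hQne : Q.Nonempty := by
    rw [← Finset.card_pos, hQL]
    exact hLpos
  obtain ⟨q1, hq1, hq1max⟩ := Finset.exists_max_image Q (rr N a l) hQne
  obtain ⟨q2, hq2, hq2min⟩ := Finset.exists_min_image Q (dd N a l) hQne
  obtain ⟨R, hRdef⟩ : ∃ R : ℤ, R = rr N a l q1 := ⟨_, rfl⟩
  obtain ⟨B, hBdef⟩ : ∃ B : ℤ, B = dd N a l q2 := ⟨_, rfl⟩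
  have hR : ∀ q, Mem N a l q 0 → rr N a l q ≤ R := by
    intro q hq
    rw [hRdef]
    exact hq1max q ((hmQ q).2 hq)
  have hB : ∀ q, Mem N a l q 0 → B ≤ dd N a l q := by
    intro q hq
    rw [hBdef]
    exact hq2min q ((hmQ q).2 hq)
  have hM1 := (hmQ q1).1 hq1
  have hM2 := (hmQ q2).1 hq2
  have hR0 : 0 ≤ R := by
    rw [hRdef]
    have h1 := (mem_zero hN (ha q1) (hl q1)).1 hM1
    have h2 := ha q1
    have h4 := hl q1
    unfold rr
    split_ifs with h5
    · omega
    · omega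
  have hBN : B ≤ N := by
    rw [hBdef]
    have h2 := ha q2
    unfold dd
    split_ifs with h5
    · omega
    · omega
  -- the three arcs `q1`, `q2`, `h` leave a point
  have hgap : ∀ h, h ∈ H → ∃ p, R < p ∧ p < B ∧ ¬ (a h ≤ p ∧ p ≤ a h + l h) := by
    intro h hh
    obtain ⟨p, h4, h5, h6⟩ := h3 q1 q2 h
    have hp0 : 0 ≤ p % N := Int.emod_nonneg _ hN.ne'
    have hp1 : p % N < N := Int.emod_lt_of_pos _ hN
    rw [← mem_mod] at h4 h5 h6
    rw [mem_q hN (ha q1) (hl q1) hM1 hp0 hp1] at h4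
    rw [mem_q hN (ha q2) (hl q2) hM2 hp0 hp1] at h5
    rw [(mem_h hN (ha h) (hl h) ((hmH h).1 hh)).2.2 _ hp0 hp1] at h6
    refine ⟨p % N, by omega, by omega, h6⟩
  have hRB : R < B := by
    obtain ⟨p, h4, h5, -⟩ := h3 q1 q2 q2
    have hp0 : 0 ≤ p % N := Int.emod_nonneg _ hN.ne'
    have hp1 : p % N < N := Int.emod_lt_of_pos _ hN
    rw [← mem_mod] at h4 h5
    rw [mem_q hN (ha q1) (hl q1) hM1 hp0 hp1] at h4
    rw [mem_q hN (ha q2) (hl q2) hM2 hp0 hp1] at h5
    omega
  have F2 : ∀ h ∈ H, a h ≤ R → B ≤ a h + l h → False := by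
    intro h hh h4 h5
    obtain ⟨p, h6, h7, h8⟩ := hgap h hh
    omega
  have hno' : ¬ ∃ c : V → ℕ, (∀ v, c v < n) ∧
      ∀ u v, u ≠ v → (∃ p, Mem N a l u p ∧ Mem N a l v p) → c u ≠ c v := by
    intro hc
    obtain ⟨c, h1, h2⟩ := hc
    refine hno ⟨c, h1, ?_⟩
    intro u v huv
    have h4 := (hG u v).1 huv
    exact h2 u v h4.1 h4.2
  have F3 : ∀ p, R ≤ p → p < B → 2 * m - 1 ≤ (fl H (fun h => a h ≤ p ∧ p < a h + l h)).card := by
    intro p hp hp'
    rw [hH]
    exact cross_bound N hN a l ha hl h3 L m n hm1 hm hL hno' R B hR hB hR0 hBN p hp hp'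
  have F4 : ∀ p, p < B → (∃ g ∈ H, a g + l g = p) →
      m ≤ (fl H (fun h => a h ≤ p ∧ p < a h + l h)).card := by
    intro p hp hg
    obtain ⟨g, hg1, hg2⟩ := hg
    rw [hH]
    exact left_bound N hN a l ha hl G hG L m n hm hL hcrit hno B hB p hp ⟨g, (hmH g).1 hg1, hg2⟩
  have F5 : ∀ p, R < p → (∃ g ∈ H, a g = p) →
      m ≤ (fl H (fun h => a h ≤ p - 1 ∧ p ≤ a h + l h)).card := by
    intro p hp hg
    obtain ⟨g, hg1, hg2⟩ := hg
    rw [hH]
    exact right_bound N hN a l ha hl G hG L m n hm hL hcrit hno R hR p hp ⟨g, (hmH g).1 hg1, hg2⟩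
  have F6 : ∀ q ∈ Q, m ≤ (fl H (fun h => a h ≤ rr N a l q)).card +
      (fl H (fun h => dd N a l q ≤ a h + l h)).card := by
    intro q hq
    rw [hH]
    exact deg_bound N hN a l ha hl G hG L m n hm hL0 hcrit hno q ((hmQ q).1 hq)
  have FL : 2 * m - 1 ≤ (fl H (fun h => a h ≤ R)).card := by
    refine le_trans (F3 R (le_refl R) hRB) (Finset.card_le_card ?_)
    intro h hh
    rw [mem_fl] at hh ⊢
    exact ⟨hh.1, hh.2.1⟩
  have FR : 2 * m - 1 ≤ (fl H (fun h => -(a h + l h) ≤ -B)).card := by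
    refine le_trans (F3 (B - 1) (by omega) (by omega)) (Finset.card_le_card ?_)
    intro h hh
    rw [mem_fl] at hh ⊢
    have h4 := hh.2
    exact ⟨hh.1, by omega⟩
  have hmc : m ≤ H.card := by
    have h4 := Finset.card_le_card (fl_subset H (fun h => a h ≤ R))
    omega
  obtain ⟨x, xinj, xH, xr⟩ := sorted_enum H a m hmc
  obtain ⟨y, yinj, yH, yr⟩ := sorted_enum H (fun h => -(a h + l h)) m hmc
  have xR : ∀ i, a (x i) ≤ R := by
    intro i
    refine xr i R ?_
    have := i.2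
    omega
  have yB : ∀ i, B ≤ a (y i) + l (y i) := by
    intro i
    have h4 : -(a (y i) + l (y i)) ≤ -B := by
      refine yr i (-B) ?_
      have := i.2
      omega
    omega
  have hadjH : ∀ u ∈ H, ∀ v ∈ H, u ≠ v → ∀ p, a u ≤ p → p ≤ a u + l u → a v ≤ p →
      p ≤ a v + l v → G.Adj u v := by
    intro u hu v hv huv p h4 h5 h6 h7
    have h8 := mem_h hN (ha u) (hl u) ((hmH u).1 hu)
    have h9 := mem_h hN (ha v) (hl v) ((hmH v).1 hv)
    have hau := ha u
    have hav := ha v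
    refine (hG u v).2 ⟨huv, p, (h8.2.2 p (by omega) (by omega)).2 ⟨h4, h5⟩,
      (h9.2.2 p (by omega) (by omega)).2 ⟨h6, h7⟩⟩
  have haeH : ∀ v ∈ H, a v ≤ a v + l v := by
    intro v _
    have := hl v
    omega
  -- the right process
  obtain ⟨Δ, w, dH, yD, wD, dd1, dB, dg, -, dw, dg2, dc⟩ := hop (ι := Fin m) G H
    (fun h => -(a h + l h)) (fun h => - a h) (1 - B) (fun _ _ => False) (by
      intro u hu v hv huv p h4 h5 h6 h7
      exact hadjH u hu v hv huv (-p) (by omega) (by omega) (by omega) (by omega)) (by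
      intro v hv
      have := haeH v hv
      omega) (by
      intro p hp hg i
      obtain ⟨g, hg1, hg2⟩ := hg
      rw [Fintype.card_fin]
      refine le_trans (F5 (-p) (by omega) ⟨g, hg1, by omega⟩) (Finset.card_le_card ?_)
      intro h hh
      rw [mem_fl] at hh ⊢
      have h4 := hh.2
      exact ⟨hh.1, by omega, by omega, not_false⟩) _ y (le_refl _) yinj yH (fun i => not_false)
  have wB1 : ∀ i, a (w i) < B := by
    intro i
    have : 1 - B ≤ - a (w i) := dB i
    omega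
  have wB2 : ∀ i, B ≤ a (w i) + l (w i) := by
    intro i
    rcases dw i with h4 | h4
    · rw [h4]
      exact yB i
    · have h5 : -(a (w i) + l (w i)) < 1 - B := h4
      omega
  have wH : ∀ i, w i ∈ H := fun i => dH i (wD i)
  -- the left process
  obtain ⟨Γ, z, gH, xG, zG, gg1, gB, gg, gF, gz, gg2, gc⟩ := hop (ι := Fin m) G H
    a (fun h => a h + l h) B (fun i g => ∃ j, j ≠ i ∧ g = w (Fin.rev j)) hadjH haeH (by
      intro p hp hg i
      rw [Fintype.card_fin]
      rcases lt_or_ge p R with h4 | h4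
      · refine le_trans (F4 p hp hg) (Finset.card_le_card ?_)
        intro h hh
        rw [mem_fl] at hh ⊢
        refine ⟨hh.1, hh.2.1, hh.2.2, ?_⟩
        rintro ⟨j, -, h5⟩
        refine F2 h hh.1 ?_ ?_
        · have := hh.2.1
          omega
        · rw [h5]
          exact wB2 _
      · have h5 := F3 p h4 hp
        have h6 : (fl H (fun h => a h ≤ p ∧ p < a h + l h)).card ≤
            (fl H (fun h => a h ≤ p ∧ p < a h + l h ∧
              ¬ ∃ j, j ≠ i ∧ h = w (Fin.rev j))).card + (m - 1) := by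
          have h7 : ((Finset.univ.erase i).image (fun j : Fin m => w (Fin.rev j))).card ≤ m - 1 := by
            refine le_trans Finset.card_image_le ?_
            rw [Finset.card_erase_of_mem (Finset.mem_univ i), Finset.card_univ, Fintype.card_fin]
          refine le_trans (Finset.card_le_card ?_) (le_trans (Finset.card_union_le _ _)
            (Nat.add_le_add_left h7 _))
          intro h hh
          rw [mem_fl] at hh
          by_cases h8 : ∃ j, j ≠ i ∧ h = w (Fin.rev j)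
          · refine Finset.mem_union_right _ ?_
            obtain ⟨j, h9, h10⟩ := h8
            exact Finset.mem_image.2 ⟨j, Finset.mem_erase.2 ⟨h9, Finset.mem_univ j⟩, h10.symm⟩
          · exact Finset.mem_union_left _ (mem_fl.2 ⟨hh.1, hh.2.1, hh.2.2, h8⟩)
        omega) _ x (le_refl _) xinj xH (by
      intro i
      rintro ⟨j, -, h5⟩
      refine F2 (x i) (xH i) (xR i) ?_
      rw [h5]
      exact wB2 _)
  have zB2 : ∀ i, a (z i) < B := by
    intro i
    rcases gz i with h4 | h4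
    · rw [h4]
      have := xR i
      omega
    · exact h4
  refine glue G Q L m (n + 1) hm hQL a (fun h => a h + l h) B H ?_ hQQ hadjH haeH Γ
    (fun i => Δ (Fin.rev i)) z (fun i => w (Fin.rev i)) gH (fun i => dH _) zG (fun i => wD _) gg1
    ?_ gB zB2 (fun i => wB1 _) (fun i => wB2 _) gg ?_ gF gc (fun i => dc _) ?_
  · intro q hq hq'
    exact (hmH q).1 hq' ((hmQ q).1 hq)
  · intro i j hij
    exact dd1 _ _ (fun h => hij (Fin.rev_injective h))
  · intro i g hg
    rcases dg (Fin.rev i) g hg with h4 | h4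
    · exact Or.inl h4
    · right
      have h5 : - a g < 1 - B := h4
      omega
  · intro q hq i
    have hMq := (hmQ q).1 hq
    by_cases hi : (i : ℕ) < (fl H (fun h => a h ≤ rr N a l q)).card
    · refine ⟨x i, Finset.mem_union_left _ (xG i), ?_⟩
      have h4 := xr i (rr N a l q) hi
      have h5 := ha (x i)
      have h6 := mem_h hN (ha (x i)) (hl (x i)) ((hmH _).1 (xH i))
      have h7 := hl (x i)
      refine (hG q (x i)).2 ⟨?_, a (x i), (mem_q hN (ha q) (hl q) hMq h5.1 h5.2).2 (Or.inl h4),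
        (h6.2.2 _ h5.1 h5.2).2 ⟨le_refl _, by omega⟩⟩
      intro h
      exact (hmH (x i)).1 (xH i) (h ▸ hMq)
    · refine ⟨y (Fin.rev i), Finset.mem_union_right _ (yD _), ?_⟩
      have h3' := F6 q hq
      have h4 : (fl H (fun h => dd N a l q ≤ a h + l h)).card ≤
          (fl H (fun h => -(a h + l h) ≤ -(dd N a l q))).card := by
        refine Finset.card_le_card ?_
        intro h hh
        rw [mem_fl] at hh ⊢
        have h8 := hh.2
        exact ⟨hh.1, by omega⟩
      have h5 : -(a (y (Fin.rev i)) + l (y (Fin.rev i))) ≤ -(dd N a l q) := by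
        refine yr (Fin.rev i) (-(dd N a l q)) ?_
        rw [Fin.val_rev]
        have := i.2
        omega
      have h6 := mem_h hN (ha (y (Fin.rev i))) (hl (y (Fin.rev i))) ((hmH _).1 (yH (Fin.rev i)))
      have h7 := hl (y (Fin.rev i))
      have h8 := ha (y (Fin.rev i))
      refine (hG q (y (Fin.rev i))).2 ⟨?_, a (y (Fin.rev i)) + l (y (Fin.rev i)),
        (mem_q hN (ha q) (hl q) hMq (by omega) (by omega)).2 (Or.inr (by omega)),
        (h6.2.2 _ (by omega) (by omega)).2 ⟨by omega, le_refl _⟩⟩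
      intro h
      exact (hmH (y (Fin.rev i))).1 (yH (Fin.rev i)) (h ▸ hMq)

end Pool.Agent.Lib.MP_534936_co
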