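import Pool.Agent.Lib.MP_534936_co.Col2
import Pool.Agent.Lib.MP_534936_co.Crit

/-!
# Normalised families around a point of maximum load

`0` is a point of maximum load `L`; the arcs of `Q` contain `0`, the arc of `q ∈ Q` is `[0, r q] ∪ [d q, N - 1]`.
-/

set_option autoImplicit false

namespace Pool.Agent.Lib.MP_534936_co

open Finset

/-- the right end of the part of an arc through `0` which starts at `0` -/
def rr {V : Type} (N : ℤ) (a l : V → ℤ) (q : V) : ℤ :=
  if N ≤ a q + l q then a q + l q - N else a q + l q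

open scoped Classical in
/-- the start of the part of an arc through `0` which ends at `N - 1` (`N` if there is no such part) -/
noncomputable def dd {V : Type} (N : ℤ) (a l : V → ℤ) (q : V) : ℤ :=
  if N ≤ a q + l q then a q else N

theorem mem_zero {V : Type} {N : ℤ} (hN : 0 < N) {a l : V → ℤ} {v : V} (ha : 0 ≤ a v ∧ a v < N)
    (hl : 0 ≤ l v ∧ l v < N) : Mem N a l v 0 ↔ a v = 0 ∨ N ≤ a v + l v := by
  rw [mem_norm ha.1 ha.2 (le_refl 0) hN]
  omega

theorem mem_q {V : Type} {N : ℤ} (hN : 0 < N) {a l : V → ℤ} {q : V} (ha : 0 ≤ a q ∧ a q < N)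
    (hl : 0 ≤ l q ∧ l q < N) (hq : Mem N a l q 0) {p : ℤ} (hp : 0 ≤ p) (hp' : p < N) :
    Mem N a l q p ↔ p ≤ rr N a l q ∨ dd N a l q ≤ p := by
  rw [mem_zero hN ha hl] at hq
  rw [mem_norm ha.1 ha.2 hp hp']
  unfold rr dd
  split_ifs with h
  · omega
  · omega

theorem mem_h {V : Type} {N : ℤ} (hN : 0 < N) {a l : V → ℤ} {h : V} (ha : 0 ≤ a h ∧ a h < N)
    (hl : 0 ≤ l h ∧ l h < N) (hh : ¬ Mem N a l h 0) :
    1 ≤ a h ∧ a h + l h ≤ N - 1 ∧ ∀ p, 0 ≤ p → p < N → (Mem N a l h p ↔ a h ≤ p ∧ p ≤ a h + l h) := by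
  rw [mem_zero hN ha hl] at hh
  refine ⟨by omega, by omega, ?_⟩
  intro p hp hp'
  rw [mem_norm ha.1 ha.2 hp hp']
  omega

theorem mem_rebase {V : Type} (N : ℤ) (a l : V → ℤ) (x : ℤ) (v : V) (p : ℤ) :
    Mem N (fun v => (a v - x) % N) l v p ↔ Mem N a l v (p + x) := by
  unfold Mem
  have e : (p - (a v - x) % N) % N = (p + x - a v) % N := by
    rw [Int.sub_emod_emod]
    congr 1
    ring
  rw [e]

/-- few arcs over an edge in the middle would give a colouring -/
theorem cross_bound {V : Type} [Fintype V] (N : ℤ) (hN : 0 < N) (a l : V → ℤ)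
    (ha : ∀ v, 0 ≤ a v ∧ a v < N) (hl : ∀ v, 0 ≤ l v ∧ l v < N)
    (h3 : ∀ u₁ u₂ u₃ : V, ∃ p, ¬ Mem N a l u₁ p ∧ ¬ Mem N a l u₂ p ∧ ¬ Mem N a l u₃ p)
    (L m n : ℕ) (hm : 1 ≤ m) (hn : n + 1 = L + m)
    (hL : ∀ p, (fl Finset.univ (fun v => Mem N a l v p)).card ≤ L)
    (hno : ¬ ∃ c : V → ℕ, (∀ v, c v < n) ∧
      ∀ u v, u ≠ v → (∃ p, Mem N a l u p ∧ Mem N a l v p) → c u ≠ c v)
    (R B : ℤ) (hR : ∀ q, Mem N a l q 0 → rr N a l q ≤ R) (hB : ∀ q, Mem N a l q 0 → B ≤ dd N a l q)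
    (hR0 : 0 ≤ R) (hBN : B ≤ N) (p : ℤ) (hp : R ≤ p) (hp' : p < B) :
    2 * m - 1 ≤ (fl (fl Finset.univ (fun v => ¬ Mem N a l v 0))
      (fun h => a h ≤ p ∧ p < a h + l h)).card := by
  by_contra hlt
  push Not at hlt
  obtain ⟨c, hc1, hc2⟩ := col_lemma N hN (fun v => (a v - (p + 1)) % N) l
    (fun v => ⟨Int.emod_nonneg _ hN.ne', Int.emod_lt_of_pos _ hN⟩) hl L (by
      intro p' _ _
      refine le_trans (Finset.card_le_card ?_) (hL (p' + (p + 1)))
      intro v hv
      rw [mem_fl] at hv ⊢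
      exact ⟨hv.1, (mem_rebase N a l (p + 1) v p').1 hv.2⟩) (by
      intro u₁ u₂ u₃
      obtain ⟨p', h1, h2, h3'⟩ := h3 u₁ u₂ u₃
      refine ⟨p' - (p + 1), ?_, ?_, ?_⟩
      · rw [mem_rebase, sub_add_cancel]
        exact h1
      · rw [mem_rebase, sub_add_cancel]
        exact h2
      · rw [mem_rebase, sub_add_cancel]
        exact h3')
  have hsub : fl Finset.univ (fun v => N ≤ (a v - (p + 1)) % N + l v) ⊆
      fl (fl Finset.univ (fun v => ¬ Mem N a l v 0)) (fun h => a h ≤ p ∧ p < a h + l h) := by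
    intro v hv
    have hv' := (mem_fl.1 hv).2
    have hav := ha v
    have hlv := hl v
    rcases le_or_gt (p + 1) (a v) with h1 | h1
    · exfalso
      rw [Int.emod_eq_of_lt (by omega) (by omega)] at hv'
      have hq : Mem N a l v 0 := (mem_zero hN hav hlv).2 (Or.inr (by omega))
      have h2 := hR v hq
      unfold rr at h2
      rw [if_pos (by omega)] at h2
      omega
    · have e : (a v - (p + 1)) % N = a v - (p + 1) + N := by
        rw [← Int.add_emod_right]
        exact Int.emod_eq_of_lt (by omega) (by omega)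
      rw [e] at hv'
      have hnq : ¬ Mem N a l v 0 := by
        intro hq
        have h2 := hR v hq
        have h4 := hB v hq
        rw [mem_zero hN hav hlv] at hq
        unfold rr at h2
        unfold dd at h4
        split_ifs at h2 h4 with h5
        · omega
        · omega
      refine mem_fl.2 ⟨mem_fl.2 ⟨Finset.mem_univ v, hnq⟩, by omega, by omega⟩
  have hcard := Finset.card_le_card hsub
  refine hno ⟨c, ?_, ?_⟩
  · intro v
    have := hc1 v
    omega
  · intro u v huv hM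
    obtain ⟨p', h1, h2⟩ := hM
    refine hc2 u v huv ⟨p' - (p + 1), ?_, ?_⟩
    · rw [mem_rebase, sub_add_cancel]
      exact h1
    · rw [mem_rebase, sub_add_cancel]
      exact h2

end Pool.Agent.Lib.MP_534936_co
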