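import Pool.Agent.Lib.MP_534936_co.Alpha

/-!
# Circular-arc graphs with `n` vertices and independence number `α` have a complete minor with `⌈n / α⌉` branch sets
-/

set_option autoImplicit false

namespace Pool.Agent.Lib.MP_534936_co

open Finset

theorem alpha_two {V : Type} [Fintype V] (N : ℤ) (hN : 0 < N) (a l : V → ℤ)
    (hl : ∀ v, 0 ≤ l v ∧ l v < N)
    (G : SimpleGraph V) (hG : ∀ u v, G.Adj u v ↔ u ≠ v ∧ ∃ p, Mem N a l u p ∧ Mem N a l v p)
    (n : ℕ)
    (h2 : ∀ u v w : V, u ≠ v → u ≠ w → v ≠ w → G.Adj u v ∨ G.Adj u w ∨ G.Adj v w)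
    (hcard : 2 * n < Fintype.card V) : HasMinor G (n + 1) := by
  classical
  obtain ⟨x, hx⟩ := exists_max_load N hN a l
  obtain ⟨L, hLdef⟩ : ∃ L : ℕ, L = (fl Finset.univ (fun v => Mem N a l v x)).card := ⟨_, rfl⟩
  rw [← hLdef] at hx
  have hreb : ∀ p, (fl Finset.univ (fun v => Mem N (fun v => (a v - x) % N) l v p)).card =
      (fl Finset.univ (fun v => Mem N a l v (p + x))).card := by
    intro p
    congr 2
    funext v
    exact propext (mem_rebase N a l x v p)
  refine alpha_two_norm N hN (fun v => (a v - x) % N) l
    (fun v => ⟨Int.emod_nonneg _ hN.ne', Int.emod_lt_of_pos _ hN⟩) hl G ?_ L n ?_ ?_ h2 hcard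
  · intro u v
    rw [hG u v]
    constructor
    · rintro ⟨h4, p, h5, h6⟩
      refine ⟨h4, p - x, ?_, ?_⟩
      · rw [mem_rebase, sub_add_cancel]
        exact h5
      · rw [mem_rebase, sub_add_cancel]
        exact h6
    · rintro ⟨h4, p, h5, h6⟩
      exact ⟨h4, p + x, (mem_rebase N a l x u p).1 h5, (mem_rebase N a l x v p).1 h6⟩
  · intro p
    rw [hreb]
    exact hx _
  · rw [hreb, zero_add]
    exact hLdef.symm

/-- a connected dominating set is one more branch set -/
theorem hasMinor_add {V : Type} (G : SimpleGraph V) (D : Set V) (k : ℕ)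
    (hD : (G.induce D).Connected) (hdom : ∀ v, v ∉ D → ∃ u ∈ D, G.Adj u v)
    (h : HasMinor (G.comap (fun v : {v // v ∉ D} => v.1)) k) : HasMinor G (k + 1) := by
  obtain ⟨f, h1, h2⟩ := h
  obtain ⟨f', hf', h1', h2'⟩ : ∃ f' : Fin k → Set V, (∀ i, ∀ v ∈ f' i, v ∉ D) ∧
      (∀ i, (G.induce (f' i)).Connected) ∧
      ∀ i j, i ≠ j → Disjoint (f' i) (f' j) ∧ ∃ x ∈ f' i, ∃ y ∈ f' j, G.Adj x y := by
    refine ⟨fun i => (fun v : {v // v ∉ D} => v.1) '' (f i), ?_, ?_, ?_⟩
    · rintro i v ⟨x, -, hx⟩
      rw [← hx]
      exact x.2
    · intro i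
      obtain ⟨F, hF⟩ : ∃ F : (G.comap (fun v : {v // v ∉ D} => v.1)).induce (f i) →g
          G.induce ((fun v : {v // v ∉ D} => v.1) '' (f i)), ∀ x, (F x).1 = x.1.1 :=
        ⟨⟨fun x => ⟨x.1.1, Set.mem_image_of_mem _ x.2⟩, fun {x y} hxy => hxy⟩, fun x => rfl⟩
      refine SimpleGraph.Connected.map F ?_ (h1 i)
      rintro ⟨v, x, hx, hxv⟩
      refine ⟨⟨x, hx⟩, Subtype.ext ?_⟩
      rw [hF]
      exact hxv
    · intro i j hij
      obtain ⟨h3, x, hx, y, hy, hxy⟩ := h2 i j hij
      refine ⟨?_, x.1, Set.mem_image_of_mem _ hx, y.1, Set.mem_image_of_mem _ hy, hxy⟩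
      exact (Set.disjoint_image_iff Subtype.val_injective).2 h3
  have hDdisj : ∀ i, Disjoint D (f' i) := by
    intro i
    rw [Set.disjoint_left]
    intro v hv hv'
    exact hf' i v hv' hv
  have hDadj : ∀ i, ∃ x ∈ D, ∃ y ∈ f' i, G.Adj x y := by
    intro i
    obtain ⟨⟨y, hy⟩⟩ := (h1' i).nonempty
    obtain ⟨u, hu, huy⟩ := hdom y (hf' i y hy)
    exact ⟨u, hu, y, hy, huy⟩
  refine hasMinor_of_equiv (ι := Option (Fin k)) G (k + 1) (by simp)
    (fun o => o.elim D f') ?_ ?_
  · intro o
    rcases o with _ | i
    · exact hD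
    · exact h1' i
  · intro o o' hoo
    rcases o with _ | i
    · rcases o' with _ | j
      · exact absurd rfl hoo
      · exact ⟨hDdisj j, hDadj j⟩
    · rcases o' with _ | j
      · obtain ⟨x, hx, y, hy, hxy⟩ := hDadj i
        exact ⟨(hDdisj i).symm, y, hy, x, hx, hxy.symm⟩
      · exact h2' i j (fun h => hoo (congrArg some h))

theorem mem_self {V : Type} {N : ℤ} {a l : V → ℤ} {v : V} (hl : 0 ≤ l v) : Mem N a l v (a v) := by
  unfold Mem
  rw [sub_self, Int.zero_emod]
  exact hl

theorem double_even {V : Type} {N : ℤ} {a l : V → ℤ} {v : V} {p : ℤ} :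
    Mem (2 * N) (fun v => 2 * a v) (fun v => 2 * l v) v (2 * p) ↔ Mem N a l v p := by
  unfold Mem
  have e : (2 * p - 2 * a v) % (2 * N) = 2 * ((p - a v) % N) := by
    rw [← mul_sub, Int.mul_emod_mul_of_pos _ _ (by norm_num)]
  simp only [e]
  omega

theorem double_odd {V : Type} {N : ℤ} (hN : 0 < N) {a l : V → ℤ} {v : V} {p : ℤ} :
    Mem (2 * N) (fun v => 2 * a v) (fun v => 2 * l v) v (2 * p + 1) ↔ (p - a v) % N < l v := by
  unfold Mem
  have e : (2 * p + 1 - 2 * a v) % (2 * N) = 2 * ((p - a v) % N) + 1 := by
    have h1 : 2 * p + 1 - 2 * a v = (2 * ((p - a v) % N) + 1) + (2 * N) * ((p - a v) / N) := by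
      have := Int.emod_add_mul_ediv (p - a v) N
      linarith
    rw [h1, Int.add_mul_emod_self_left]
    have h2 := Int.emod_nonneg (p - a v) hN.ne'
    have h3 := Int.emod_lt_of_pos (p - a v) hN
    exact Int.emod_eq_of_lt (by omega) (by omega)
  simp only [e]
  omega

theorem dm : ∀ (n : ℕ) (V : Type) [Fintype V]
    (N : ℤ) (_ : 0 < N) (a l : V → ℤ)
    (_ : ∀ v, 0 ≤ a v ∧ a v < N) (_ : ∀ v, 0 ≤ l v ∧ l v < N)
    (G : SimpleGraph V) (_ : ∀ u v, G.Adj u v ↔ u ≠ v ∧ ∃ p, Mem N a l u p ∧ Mem N a l v p)
    (al : ℕ) (_ : ∀ S : Finset V, (∀ u ∈ S, ∀ v ∈ S, u ≠ v → ¬ G.Adj u v) → S.card ≤ al)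
    (_ : al * n < Fintype.card V), HasMinor G (n + 1) := by
  intro n
  induction n with
  | zero =>
    intro V _ N hN a l ha hl G hG al hal hcard
    have hne : Nonempty V := Fintype.card_pos_iff.1 (by omega)
    obtain ⟨v⟩ := hne
    refine hasMinor_of_clique G (0 + 1) {v} (by simp) ?_
    intro u hu w hw huw
    rw [Finset.mem_singleton] at hu hw
    exact absurd (hu.trans hw.symm) huw
  | succ n ih =>
    intro V _ N hN a l ha hl G hG al hal hcard
    classical
    have hstab3 : ∀ u v w : V, u ≠ v → u ≠ w → v ≠ w → ¬ G.Adj u v → ¬ G.Adj u w →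
        ¬ G.Adj v w → 3 ≤ al := by
      intro u v w huv huw hvw h1 h2 h3
      have h4 : ({u, v, w} : Finset V).card = 3 := Finset.card_eq_three.2 ⟨u, v, w, huv, huw, hvw, rfl⟩
      rw [← h4]
      refine hal _ ?_
      intro x hx y hy hxy
      simp only [Finset.mem_insert, Finset.mem_singleton] at hx hy
      rcases hx with rfl | rfl | rfl <;> rcases hy with rfl | rfl | rfl <;>
        first
        | exact absurd rfl hxy
        | assumption
        | (intro h; exact absurd h.symm (by assumption))
    by_cases hal2 : al ≤ 2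
    · -- independence number at most two
      have hpos : 0 < Fintype.card V := by omega
      have hal0 : al ≠ 0 := by
        intro h0
        obtain ⟨v⟩ := Fintype.card_pos_iff.1 hpos
        have h1 := hal {v} (by
          intro u hu w hw huw
          rw [Finset.mem_singleton] at hu hw
          exact absurd (hu.trans hw.symm) huw)
        rw [Finset.card_singleton] at h1
        omega
      by_cases hal1 : al = 1
      · refine hasMinor_of_clique G (n + 1 + 1) Finset.univ (by
          rw [Finset.card_univ]
          rw [hal1] at hcard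
          omega) ?_
        intro u _ v _ huv
        by_contra h1
        have h2 : ({u, v} : Finset V).card = 2 := Finset.card_pair huv
        have h3 := hal {u, v} (by
          intro x hx y hy hxy
          simp only [Finset.mem_insert, Finset.mem_singleton] at hx hy
          rcases hx with rfl | rfl <;> rcases hy with rfl | rfl
          · exact absurd rfl hxy
          · exact h1
          · exact fun h => h1 h.symm
          · exact absurd rfl hxy)
        omega
      · have hal3 : al = 2 := by omega
        refine alpha_two N hN a l hl G hG (n + 1) ?_ (by rw [hal3] at hcard; exact hcard)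
        intro u v w huv huw hvw
        by_contra hno
        push Not at hno
        have := hstab3 u v w huv huw hvw hno.1 hno.2.1 hno.2.2
        omega
    · push Not at hal2
      have hN2 : 0 < 2 * N := by omega
      have hmul : al * (n + 1) = al * n + al := by ring
      by_cases h3 : ∀ u₁ u₂ u₃ : V, ∃ p, ¬ Mem (2 * N) (fun v => 2 * a v) (fun v => 2 * l v) u₁ p ∧
          ¬ Mem (2 * N) (fun v => 2 * a v) (fun v => 2 * l v) u₂ p ∧
          ¬ Mem (2 * N) (fun v => 2 * a v) (fun v => 2 * l v) u₃ p
      · -- no three arcs cover the circle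
        refine minor_of_not_colourable (Fintype.card V) V rfl (2 * N) hN2 (fun v => 2 * a v)
          (fun v => 2 * l v) (fun v => ?_) (fun v => ?_) h3 G ?_ (n + 1) ?_
        · have := ha v
          constructor
          · omega
          · omega
        · have := hl v
          constructor
          · omega
          · omega
        · intro u v
          rw [hG u v]
          constructor
          · rintro ⟨h4, p, h5, h6⟩
            exact ⟨h4, 2 * p, double_even.2 h5, double_even.2 h6⟩
          · rintro ⟨h4, p, h5, h6⟩
            refine ⟨h4, ?_⟩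
            rcases Int.even_or_odd' p with ⟨r, hr | hr⟩
            · rw [hr] at h5 h6
              exact ⟨r, double_even.1 h5, double_even.1 h6⟩
            · rw [hr] at h5 h6
              exact ⟨r, ((double_odd hN).1 h5).le, ((double_odd hN).1 h6).le⟩
        · rintro ⟨c, hc1, hc2⟩
          have h4 : Fintype.card V ≤ al * (n + 1) := by
            rw [← Finset.card_univ]
            refine le_trans (Finset.card_le_mul_card_image_of_maps_to
              (t := Finset.range (n + 1)) (f := c)
              (fun v _ => Finset.mem_range.2 (hc1 v)) al ?_) ?_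
            · intro b _
              refine hal _ ?_
              intro u hu v hv huv hadj
              rw [Finset.mem_filter] at hu hv
              exact hc2 u v hadj (hu.2.trans hv.2.symm)
            · rw [Finset.card_range]
          omega
      · -- three arcs cover the circle
        push Not at h3
        obtain ⟨u₁, u₂, u₃, hcov⟩ := h3
        obtain ⟨D, hD⟩ : ∃ D : Finset V, D = {u₁, u₂, u₃} := ⟨_, rfl⟩
        have hmD : ∀ v, v ∈ D ↔ v = u₁ ∨ v = u₂ ∨ v = u₃ := by
          intro v
          rw [hD]
          simp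
        have hcov' : ∀ p, ∃ u ∈ D, Mem (2 * N) (fun v => 2 * a v) (fun v => 2 * l v) u p := by
          intro p
          by_cases h4 : Mem (2 * N) (fun v => 2 * a v) (fun v => 2 * l v) u₁ p
          · exact ⟨u₁, (hmD _).2 (Or.inl rfl), h4⟩
          · by_cases h5 : Mem (2 * N) (fun v => 2 * a v) (fun v => 2 * l v) u₂ p
            · exact ⟨u₂, (hmD _).2 (Or.inr (Or.inl rfl)), h5⟩
            · exact ⟨u₃, (hmD _).2 (Or.inr (Or.inr rfl)), hcov p h4 h5⟩
        have hDc : D.card ≤ 3 := by
          rw [hD]
          exact Finset.card_le_three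
        -- every vertex of `D` has a neighbour in `D`
        have hnb : ∀ u, u ∈ D → ∃ w ∈ D, G.Adj u w := by
          intro u hu
          obtain ⟨w, hw, hw'⟩ := hcov' (2 * (a u + l u) + 1)
          have h4 := (double_odd hN).1 hw'
          have h5 : w ≠ u := by
            intro h
            rw [h] at h4
            have h6 : a u + l u - a u = l u := by ring
            rw [h6, Int.emod_eq_of_lt (hl u).1 (hl u).2] at h4
            exact lt_irrefl _ h4
          refine ⟨w, hw, (hG u w).2 ⟨h5.symm, a u + l u, ?_, h4.le⟩⟩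
          unfold Mem
          have h6 : a u + l u - a u = l u := by ring
          rw [h6, Int.emod_eq_of_lt (hl u).1 (hl u).2]
        have hdom : ∀ v, v ∉ D → ∃ u ∈ D, G.Adj u v := by
          intro v hv
          obtain ⟨w, hw, hw'⟩ := hcov' (2 * a v)
          refine ⟨w, hw, (hG w v).2 ⟨fun h => hv (h ▸ hw), a v, double_even.1 hw', mem_self (hl v).1⟩⟩
        have hconn : (G.induce (D : Set V)).Connected := by
          obtain ⟨w, hw, hadj⟩ := hnb u₁ ((hmD _).2 (Or.inl rfl))
          rcases (hmD w).1 hw with h4 | h4 | h4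
          · rw [h4] at hadj
            exact absurd hadj (G.loopless.irrefl u₁)
          · rw [h4] at hadj
            obtain ⟨w', hw', hadj'⟩ := hnb u₃ ((hmD _).2 (Or.inr (Or.inr rfl)))
            have h5 : w' ∈ ({u₁, u₂} : Set V) := by
              rcases (hmD w').1 hw' with h6 | h6 | h6
              · exact Or.inl h6
              · exact Or.inr h6
              · rw [h6] at hadj'
                exact absurd hadj' (G.loopless.irrefl u₃)
            have h6 := conn_union G (SimpleGraph.induce_pair_connected_of_adj hadj)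
              (conn_single G u₃) h5 rfl (Or.inr hadj'.symm)
            have h7 : (D : Set V) = {u₁, u₂} ∪ {u₃} := by
              ext v
              rw [Finset.mem_coe, hmD]
              simp only [Set.mem_union, Set.mem_insert_iff, Set.mem_singleton_iff]
              tauto
            rw [h7]
            exact h6
          · rw [h4] at hadj
            obtain ⟨w', hw', hadj'⟩ := hnb u₂ ((hmD _).2 (Or.inr (Or.inl rfl)))
            have h5 : w' ∈ ({u₁, u₃} : Set V) := by
              rcases (hmD w').1 hw' with h6 | h6 | h6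
              · exact Or.inl h6
              · rw [h6] at hadj'
                exact absurd hadj' (G.loopless.irrefl u₂)
              · exact Or.inr h6
            have h6 := conn_union G (SimpleGraph.induce_pair_connected_of_adj hadj)
              (conn_single G u₂) h5 rfl (Or.inr hadj'.symm)
            have h7 : (D : Set V) = {u₁, u₃} ∪ {u₂} := by
              ext v
              rw [Finset.mem_coe, hmD]
              simp only [Set.mem_union, Set.mem_insert_iff, Set.mem_singleton_iff]
              tauto
            rw [h7]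
            exact h6
        refine hasMinor_add G (D : Set V) (n + 1) hconn (fun v hv => hdom v (fun h => hv h)) ?_
        refine ih {v // v ∉ (D : Set V)} N hN (fun v => a v.1) (fun v => l v.1) (fun v => ha v.1)
          (fun v => hl v.1) _ ?_ al ?_ ?_
        · intro u v
          rw [SimpleGraph.comap_adj, hG u.1 v.1]
          constructor
          · rintro ⟨h4, h5⟩
            exact ⟨fun h => h4 (congrArg Subtype.val h), h5⟩
          · rintro ⟨h4, h5⟩
            exact ⟨fun h => h4 (Subtype.ext h), h5⟩
        · intro S hS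
          have h4 := hal (S.map ⟨fun v : {v // v ∉ (D : Set V)} => v.1, Subtype.val_injective⟩) (by
            intro u hu v hv huv
            obtain ⟨u', hu', rfl⟩ := Finset.mem_map.1 hu
            obtain ⟨v', hv', rfl⟩ := Finset.mem_map.1 hv
            exact hS u' hu' v' hv' (fun h => huv (by rw [h])))
          rwa [Finset.card_map] at h4
        · have h4 : Fintype.card {v // v ∉ (D : Set V)} + D.card = Fintype.card V := by
            have h5 := Fintype.card_subtype_compl (fun v : V => v ∈ D)
            have h6 : Fintype.card {v // v ∈ D} = D.card := Fintype.card_coe D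
            have h7 : D.card ≤ Fintype.card V := Finset.card_le_univ D
            have h8 : Fintype.card {v // v ∉ (D : Set V)} = Fintype.card {v // ¬ v ∈ D} :=
              Fintype.card_congr (Equiv.refl _)
            omega
          omega

end Pool.Agent.Lib.MP_534936_co
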