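import Pool.Agent.Lib.MP_534936_co.Greedy

/-!
# Sorted enumeration of the smallest elements
-/

set_option autoImplicit false

namespace Pool.Agent.Lib.MP_534936_co

open Finset

/-- the `m` smallest elements of `H` with respect to `f`, in order -/
theorem sorted_enum {V : Type} (H : Finset V) (f : V → ℤ) (m : ℕ) (hm : m ≤ H.card) :
    ∃ x : Fin m → V, Function.Injective x ∧ (∀ i, x i ∈ H) ∧
      ∀ (i : Fin m) (r : ℤ), (i : ℕ) < (fl H (fun h => f h ≤ r)).card → f (x i) ≤ r := by
  classical
  obtain ⟨e0, he0⟩ : ∃ e0 : Fin H.card → V, e0 = fun i => (H.equivFin.symm i : V) := ⟨_, rfl⟩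
  have e0inj : Function.Injective e0 := by
    intro i j hij
    rw [he0] at hij
    exact H.equivFin.symm.injective (Subtype.ext hij)
  have e0mem : ∀ i, e0 i ∈ H := fun i => by
    rw [he0]
    exact (H.equivFin.symm i).2
  have e0sur : ∀ v ∈ H, ∃ i, e0 i = v := fun v hv => by
    refine ⟨H.equivFin ⟨v, hv⟩, ?_⟩
    rw [he0]
    simp
  obtain ⟨y, hy⟩ : ∃ y : Fin H.card → V, y = fun i => e0 (Tuple.sort (f ∘ e0) i) := ⟨_, rfl⟩
  have ymono : ∀ i j, i ≤ j → f (y i) ≤ f (y j) := by
    intro i j hij
    rw [hy]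
    exact Tuple.monotone_sort (f ∘ e0) hij
  have yinj : Function.Injective y := by
    intro i j hij
    rw [hy] at hij
    exact (Tuple.sort (f ∘ e0)).injective (e0inj hij)
  have ymem : ∀ i, y i ∈ H := fun i => by
    rw [hy]
    exact e0mem _
  have ysur : ∀ v ∈ H, ∃ i, y i = v := fun v hv => by
    obtain ⟨i, hi⟩ := e0sur v hv
    refine ⟨(Tuple.sort (f ∘ e0)).symm i, ?_⟩
    rw [hy]
    simp only [Equiv.apply_symm_apply]
    exact hi
  refine ⟨fun i => y (Fin.castLE hm i), ?_, fun i => ymem _, ?_⟩
  · intro i j hij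
    exact Fin.castLE_injective hm (yinj hij)
  · intro i r hi
    by_contra hlt
    push Not at hlt
    have hsub : fl H (fun h => f h ≤ r) ⊆
        (Finset.univ.filter (fun j : Fin H.card => (j : ℕ) < (i : ℕ))).image y := by
      intro v hv
      rw [mem_fl] at hv
      obtain ⟨j, hj⟩ := ysur v hv.1
      refine Finset.mem_image.2 ⟨j, ?_, hj⟩
      rw [Finset.mem_filter]
      refine ⟨Finset.mem_univ j, ?_⟩
      by_contra hji
      push Not at hji
      have h1 := ymono (Fin.castLE hm i) j hji
      rw [hj] at h1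
      exact absurd (le_trans h1 hv.2) (not_le.2 hlt)
    have h1 := (Finset.card_le_card hsub).trans Finset.card_image_le
    have h2 : (Finset.univ.filter (fun j : Fin H.card => (j : ℕ) < (i : ℕ))).card ≤ (i : ℕ) := by
      have h3 : (Finset.univ.filter (fun j : Fin H.card => (j : ℕ) < (i : ℕ))).card =
          ((Finset.univ.filter (fun j : Fin H.card => (j : ℕ) < (i : ℕ))).image
            (fun j : Fin H.card => (j : ℕ))).card := by
        rw [Finset.card_image_of_injective _ Fin.val_injective]
      rw [h3]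
      refine (Finset.card_le_card (t := Finset.range (i : ℕ)) ?_).trans ?_
      · intro j hj
        obtain ⟨k, hk, rfl⟩ := Finset.mem_image.1 hj
        exact Finset.mem_range.2 (Finset.mem_filter.1 hk).2
      · rw [Finset.card_range]
    omega

end Pool.Agent.Lib.MP_534936_co
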