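import Pool.Agent.Lib.MP_534936_co.Induct

/-!
# Circular-arc graphs are generalized quasi-line graphs; the statement about the chromatic number
-/

set_option autoImplicit false

namespace Pool.Agent.Lib.MP_534936_co

open Finset

/-- two arcs which meet, the first not longer than the second: the second contains an end of the first -/
theorem end_mem {V : Type} {N : ℤ} (hN : 0 < N) {a l : V → ℤ} {u v : V} (hl : 0 ≤ l u ∧ l u < N)
    (hle : l u ≤ l v) {p : ℤ} (hp : Mem N a l u p) (hp' : Mem N a l v p) :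
    Mem N a l v (a u) ∨ Mem N a l v (a u + l u) := by
  unfold Mem at *
  have h1 := Int.emod_nonneg (p - a u) hN.ne'
  have h2 := Int.emod_lt_of_pos (p - a u) hN
  have h3 := Int.emod_nonneg (p - a v) hN.ne'
  have h4 := Int.emod_lt_of_pos (p - a v) hN
  rcases le_or_gt ((p - a u) % N) ((p - a v) % N) with h | h
  · left
    have e : (a u - a v) % N = ((p - a v) % N - (p - a u) % N) % N := by
      rw [← Int.sub_emod]
      congr 1
      ring
    rw [e, Int.emod_eq_of_lt (by omega) (by omega)]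
    omega
  · right
    have e : (a u + l u - a v) % N = (l u - ((p - a u) % N - (p - a v) % N)) % N := by
      rw [Int.sub_emod (l u) ((p - a u) % N - (p - a v) % N), ← Int.sub_emod (p - a u) (p - a v),
        ← Int.sub_emod]
      congr 1
      ring
    rw [e, Int.emod_eq_of_lt (by omega) (by omega)]
    omega

theorem gql {V : Type} [Fintype V] (N : ℤ) (hN : 0 < N) (a l : V → ℤ)
    (hl : ∀ v, 0 ≤ l v ∧ l v < N)
    (G : SimpleGraph V) (hG : ∀ u v, G.Adj u v ↔ u ≠ v ∧ ∃ p, Mem N a l u p ∧ Mem N a l v p)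
    (S : Set V) (hS : S.Nonempty) :
    ∃ u ∈ S, ∃ A B : Set V, G.IsClique A ∧ G.IsClique B ∧ A ∪ B = {v | v ∈ S ∧ G.Adj u v} := by
  obtain ⟨u, hu, hmin⟩ := Set.exists_min_image S l S.toFinite hS
  refine ⟨u, hu, {v | (v ∈ S ∧ G.Adj u v) ∧ Mem N a l v (a u)},
    {v | (v ∈ S ∧ G.Adj u v) ∧ Mem N a l v (a u + l u)}, ?_, ?_, ?_⟩
  · intro v hv w hw hvw
    exact (hG v w).2 ⟨hvw, _, hv.2, hw.2⟩
  · intro v hv w hw hvw
    exact (hG v w).2 ⟨hvw, _, hv.2, hw.2⟩
  · ext v
    constructor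
    · rintro (h | h)
      · exact h.1
      · exact h.1
    · intro h
      obtain ⟨p, h1, h2⟩ := ((hG u v).1 h.2).2
      rcases end_mem hN (hl u) (hmin v h.1) h1 h2 with h3 | h3
      · exact Or.inl ⟨h, h3⟩
      · exact Or.inr ⟨h, h3⟩

theorem hadwiger {V : Type} [Fintype V] (N : ℤ) (hN : 0 < N) (a l : V → ℤ)
    (ha : ∀ v, 0 ≤ a v ∧ a v < N) (hl : ∀ v, 0 ≤ l v ∧ l v < N)
    (h3 : ∀ u₁ u₂ u₃ : V, ∃ p, ¬ Mem N a l u₁ p ∧ ¬ Mem N a l u₂ p ∧ ¬ Mem N a l u₃ p)
    (G : SimpleGraph V) (hG : ∀ u v, G.Adj u v ↔ u ≠ v ∧ ∃ p, Mem N a l u p ∧ Mem N a l v p)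
    (k : ℕ) (hk : G.chromaticNumber = (k : ℕ∞)) : HasMinor G k := by
  rcases k with _ | n
  · exact ⟨fun i => i.elim0, fun i => i.elim0, fun i => i.elim0⟩
  · refine minor_of_not_colourable (Fintype.card V) V rfl N hN a l ha hl h3 G hG n ?_
    rintro ⟨c, h1, h2⟩
    have hcol : G.Colorable n := by
      refine ⟨SimpleGraph.Coloring.mk (fun v => (⟨c v, h1 v⟩ : Fin n)) ?_⟩
      intro u v huv heq
      exact h2 u v huv (congrArg Fin.val heq)
    have h4 := hcol.chromaticNumber_le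
    rw [hk] at h4
    have h5 : n + 1 ≤ n := by exact_mod_cast h4
    omega

end Pool.Agent.Lib.MP_534936_co
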