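import Pool.Agent.Lib.MP_534936_co.Wrap

/-!
# From closed arcs of the circle `ℝ / ℤ` to arcs of the cycle `ℤ / N`, any family

The finite set `P` of points contains all starting points, and for every three arcs which do not cover the circle
a point which is on none of them.
-/

namespace Pool.Agent.Lib.MP_534936_co

/-- a strictly increasing sequence of `N` numbers: those at most `t` are the first ones -/
private theorem wrap_initial' {N : ℕ} {g : ℕ → ℝ} (hg : ∀ i j, i < j → j < N → g i < g j)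
    (t : ℝ) : ∃ m : ℕ, m ≤ N ∧ ∀ j < N, g j ≤ t ↔ j < m := by
  classical
  by_cases h : ∃ j, j < N ∧ t < g j
  · refine ⟨Nat.find h, (Nat.find_spec h).1.le, fun j hj => ⟨fun h1 => ?_, fun h1 => ?_⟩⟩
    · by_contra h2
      rcases (not_lt.1 h2).eq_or_lt with h3 | h3
      · have := (Nat.find_spec h).2
        rw [h3] at this
        linarith
      · have h4 := hg _ _ h3 hj
        have h5 := (Nat.find_spec h).2
        linarith
    · have h2 := Nat.find_min h h1
      push Not at h2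
      exact h2 hj
  · push Not at h
    exact ⟨N, le_rfl, fun j hj => ⟨fun _ => hj, fun _ => h j hj⟩⟩

theorem wrap_all {V : Type*} [Finite V] (s l : V → ℝ) (h0 : ∀ v, 0 ≤ l v) :
    ∃ (N : ℤ) (a b : V → ℤ), 0 < N ∧ (∀ v, 0 ≤ a v ∧ a v < N ∧ 0 ≤ b v ∧ b v < N) ∧
      (∀ u v, (∃ x, OnArc (s u) (l u) x ∧ OnArc (s v) (l v) x) ↔
        ∃ p : ℤ, (p - a u) % N ≤ b u ∧ (p - a v) % N ≤ b v) ∧
      (∀ u v w, (∃ x, ¬ OnArc (s u) (l u) x ∧ ¬ OnArc (s v) (l v) x ∧ ¬ OnArc (s w) (l w) x) →
        ∃ p : ℤ, b u < (p - a u) % N ∧ b v < (p - a v) % N ∧ b w < (p - a w) % N) := by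
  classical
  cases nonempty_fintype V
  have h3 : ∀ u v w, ∃ x, (∃ x, ¬ OnArc (s u) (l u) x ∧ ¬ OnArc (s v) (l v) x ∧
      ¬ OnArc (s w) (l w) x) → ¬ OnArc (s u) (l u) x ∧ ¬ OnArc (s v) (l v) x ∧
      ¬ OnArc (s w) (l w) x := by
    intro u v w
    by_cases h : ∃ x, ¬ OnArc (s u) (l u) x ∧ ¬ OnArc (s v) (l v) x ∧ ¬ OnArc (s w) (l w) x
    · obtain ⟨x, hx⟩ := h
      exact ⟨x, fun _ => hx⟩
    · exact ⟨0, fun h' => absurd h' h⟩
  choose f hf using h3
  let P : Finset ℝ := insert 0 (Finset.univ.image (fun v => Int.fract (s v)) ∪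
    Finset.univ.image (fun q : V × V × V => Int.fract (f q.1 q.2.1 q.2.2)))
  have hP : ∀ x ∈ P, 0 ≤ x ∧ x < 1 := by
    intro x hx
    rcases Finset.mem_insert.1 hx with rfl | hx
    · exact ⟨le_rfl, one_pos⟩
    · rcases Finset.mem_union.1 hx with hx | hx
      · obtain ⟨v, -, rfl⟩ := Finset.mem_image.1 hx
        exact ⟨Int.fract_nonneg _, Int.fract_lt_one _⟩
      · obtain ⟨v, -, rfl⟩ := Finset.mem_image.1 hx
        exact ⟨Int.fract_nonneg _, Int.fract_lt_one _⟩
  have hPs : ∀ v, Int.fract (s v) ∈ P := fun v => Finset.mem_insert_of_mem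
    (Finset.mem_union_left _ (Finset.mem_image_of_mem _ (Finset.mem_univ v)))
  have hPf : ∀ u v w, Int.fract (f u v w) ∈ P := fun u v w => Finset.mem_insert_of_mem
    (Finset.mem_union_right _ (Finset.mem_image.2 ⟨(u, v, w), Finset.mem_univ _, rfl⟩))
  let n : ℕ := P.card
  have hn : 0 < n := Finset.card_pos.2 ⟨0, Finset.mem_insert_self _ _⟩
  let e : Fin n ↪o ℝ := P.orderEmbOfFin rfl
  have he : ∀ x ∈ P, ∃ i : Fin n, e i = x := by
    intro x hx
    have h1 : x ∈ Set.range e := by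
      rw [Finset.range_orderEmbOfFin]
      exact hx
    exact h1
  have heP : ∀ i, e i ∈ P := fun i => Finset.orderEmbOfFin_mem P rfl i
  -- the point with index `p`
  have hN : (0 : ℤ) < n := by exact_mod_cast hn
  let pt : ℤ → ℝ := fun p => e ⟨(p % n).toNat, by
    have h1 := Int.emod_nonneg p hN.ne'
    have h2 := Int.emod_lt_of_pos p hN
    omega⟩
  have hpt : ∀ p q : ℤ, p % n = q % n → pt p = pt q := by
    intro p q h
    simp only [pt, h]
  have hpt' : ∀ i : Fin n, pt (i : ℕ) = e i := by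
    intro i
    simp only [pt]
    congr 1
    ext
    have h1 : ((i : ℕ) : ℤ) % n = (i : ℕ) := Int.emod_eq_of_lt (by omega) (by exact_mod_cast i.2)
    simp only [h1]
    simp
  choose ia hia using fun v => he _ (hPs v)
  -- the points of an arc
  have key : ∀ v, ∃ m : ℕ, m ≤ n ∧ ∀ p : ℤ, OnArc (s v) (l v) (pt p) ↔
      (p - (ia v : ℕ)) % n < m := by
    intro v
    let i : Fin n := ia v
    let g : ℕ → ℝ := fun j => Int.fract (pt ((i : ℕ) + j) - e i)
    have g1 : ∀ j : ℕ, ∀ h : (i : ℕ) + j < n, g j = e ⟨i + j, h⟩ - e i := by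
      intro j h
      have h1 : pt ((i : ℕ) + (j : ℕ)) = e ⟨i + j, h⟩ := by
        rw [← hpt' ⟨i + j, h⟩]
        push_cast
        rfl
      simp only [g]
      rw [h1, Int.fract_eq_self]
      have h2 : e i ≤ e ⟨i + j, h⟩ := e.monotone (by
        rw [Fin.le_def]; simp)
      have h3 := hP _ (heP ⟨i + j, h⟩)
      have h4 := hP _ (heP i)
      exact ⟨by linarith, by linarith [h3.2, h4.1]⟩
    have g2 : ∀ j : ℕ, n ≤ (i : ℕ) + j → ∀ h : (i : ℕ) + j - n < n, (i : ℕ) + j - n < i →
        g j = e ⟨i + j - n, h⟩ - e i + 1 := by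
      intro j h1 h h2
      have h3 : pt ((i : ℕ) + (j : ℕ)) = e ⟨i + j - n, h⟩ := by
        rw [← hpt' ⟨i + j - n, h⟩]
        apply hpt
        have h4 : (((i : ℕ) + j - n : ℕ) : ℤ) = (i : ℕ) + (j : ℕ) - n := by omega
        simp only [h4]
        rw [Int.sub_emod_right]
      simp only [g]
      rw [h3, Int.fract_eq_iff]
      have h4 : e ⟨i + j - n, h⟩ < e i := e.strictMono (by
        rw [Fin.lt_def]; exact h2)
      have h5 := hP _ (heP ⟨i + j - n, h⟩)
      have h6 := hP _ (heP i)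
      exact ⟨by linarith [h5.1, h6.2], by linarith, -1, by push_cast; ring⟩
    have hg : ∀ j j', j < j' → j' < n → g j < g j' := by
      intro j j' h1 h2
      by_cases c1 : (i : ℕ) + j' < n
      · have c2 : (i : ℕ) + j < n := by omega
        rw [g1 j c2, g1 j' c1]
        have h4 : e ⟨i + j, c2⟩ < e ⟨i + j', c1⟩ := e.strictMono (by
          rw [Fin.lt_def]; simp only; omega)
        linarith
      · have c1' : n ≤ (i : ℕ) + j' := not_lt.1 c1
        have hi : (i : ℕ) < n := i.2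
        rw [g2 j' c1' (by omega) (by omega)]
        by_cases c2 : (i : ℕ) + j < n
        · rw [g1 j c2]
          have h5 := hP _ (heP ⟨i + j, c2⟩)
          have h6 := hP _ (heP ⟨i + j' - n, by omega⟩)
          linarith [h5.2, h6.1]
        · rw [g2 j (not_lt.1 c2) (by omega) (by omega)]
          have h4 : e ⟨i + j - n, by omega⟩ < e ⟨i + j' - n, by omega⟩ := e.strictMono (by
            rw [Fin.lt_def]; simp only; omega)
          linarith
    obtain ⟨m, hm, hm'⟩ := wrap_initial' hg (l v)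
    refine ⟨m, hm, fun p => ?_⟩
    have h1 := Int.emod_nonneg (p - (i : ℕ)) hN.ne'
    have h2 := Int.emod_lt_of_pos (p - (i : ℕ)) hN
    have h4 := hm' ((p - (i : ℕ)) % n).toNat (by omega)
    have h5 : g ((p - (i : ℕ)) % n).toNat = Int.fract (pt p - e i) := by
      simp only [g]
      congr 2
      apply hpt
      rw [Int.toNat_of_nonneg h1, Int.add_emod_emod]
      congr 1
      ring
    rw [h5] at h4
    have h6 : OnArc (s v) (l v) (pt p) ↔ Int.fract (pt p - e i) ≤ l v := by
      rw [← onArc_fract_left, OnArc, hia v]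
    rw [h6, h4]
    show _ ↔ (p - (i : ℕ)) % n < m
    omega
  choose m hm hm' using key
  have hm0 : ∀ v, 0 < m v := by
    intro v
    have h1 := (hm' v (ia v : ℕ)).1 (by
      rw [hpt', hia, onArc_fract_right, OnArc, sub_self, Int.fract_zero]
      exact h0 v)
    rw [sub_self, Int.zero_emod] at h1
    exact_mod_cast h1
  refine ⟨n, fun v => (ia v : ℕ), fun v => (m v : ℤ) - 1, hN, fun v => ?_, fun u v => ?_,
    fun u v w => ?_⟩
  · have h1 := (ia v).2
    have h2 := hm0 v
    have h3 := hm v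
    have h4 : ((ia v : ℕ) : ℤ) < n := by exact_mod_cast h1
    have h5 : ((m v : ℕ) : ℤ) ≤ n := by exact_mod_cast h3
    have h6 : (0 : ℤ) < (m v : ℕ) := by exact_mod_cast h2
    exact ⟨Int.natCast_nonneg _, h4, by simp only; linarith, by simp only; linarith⟩
  · have hh : ∀ (v : V) (p : ℤ), (p - (ia v : ℕ)) % n ≤ (m v : ℤ) - 1 ↔
        OnArc (s v) (l v) (pt p) := by
      intro v p
      rw [hm' v p]
      omega
    constructor
    · rintro ⟨x, hx1, hx2⟩
      have hs : ∀ v, OnArc (s v) (l v) (s v) := by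
        intro v
        rw [OnArc, sub_self, Int.fract_zero]
        exact h0 v
      rcases onArc_start hx1 hx2 with h1 | h1
      · refine ⟨(ia u : ℕ), (hh u _).2 ?_, (hh v _).2 ?_⟩
        · rw [hpt', hia, onArc_fract_right]; exact hs u
        · rw [hpt', hia, onArc_fract_right]; exact h1
      · refine ⟨(ia v : ℕ), (hh u _).2 ?_, (hh v _).2 ?_⟩
        · rw [hpt', hia, onArc_fract_right]; exact h1
        · rw [hpt', hia, onArc_fract_right]; exact hs v
    · rintro ⟨p, hp1, hp2⟩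
      exact ⟨pt p, (hh u p).1 hp1, (hh v p).1 hp2⟩
  · intro huvw
    obtain ⟨i, hi⟩ := he _ (hPf u v w)
    have hh : ∀ v', ¬ OnArc (s v') (l v') (f u v w) →
        (m v' : ℤ) - 1 < (((i : ℕ) : ℤ) - (ia v' : ℕ)) % n := by
      intro v' h
      by_contra h2
      apply h
      rw [← onArc_fract_right, ← hi, ← hpt', hm']
      omega
    exact ⟨(i : ℕ), hh u (hf u v w huvw).1, hh v (hf u v w huvw).2.1,
      hh w (hf u v w huvw).2.2⟩

end Pool.Agent.Lib.MP_534936_co
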