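import Pool.Agent.Lib.MP_534936_co.Critical

/-!
# The minor in every family in which no three arcs cover the circle
-/

set_option autoImplicit false

namespace Pool.Agent.Lib.MP_534936_co

open Finset

theorem hasMinor_comap {V W : Type} (G : SimpleGraph V) (φ : W → V) (hφ : Function.Injective φ)
    (k : ℕ) (h : HasMinor (G.comap φ) k) : HasMinor G k := by
  obtain ⟨f, h1, h2⟩ := h
  refine ⟨fun i => φ '' (f i), ?_, ?_⟩
  · intro i
    obtain ⟨F, hF⟩ : ∃ F : (G.comap φ).induce (f i) →g G.induce (φ '' (f i)),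
        ∀ x, (F x).1 = φ x.1 :=
      ⟨⟨fun x => ⟨φ x.1, Set.mem_image_of_mem φ x.2⟩, fun {x y} hxy => hxy⟩, fun x => rfl⟩
    refine SimpleGraph.Connected.map F ?_ (h1 i)
    rintro ⟨v, x, hx, hxv⟩
    refine ⟨⟨x, hx⟩, Subtype.ext ?_⟩
    rw [hF]
    exact hxv
  · intro i j hij
    obtain ⟨h3, x, hx, y, hy, hxy⟩ := h2 i j hij
    refine ⟨?_, φ x, Set.mem_image_of_mem φ hx, φ y, Set.mem_image_of_mem φ hy, hxy⟩
    exact (Set.disjoint_image_iff hφ).2 h3

/-- the load is attained -/
theorem exists_max_load {V : Type} [Fintype V] (N : ℤ) (hN : 0 < N) (a l : V → ℤ) :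
    ∃ x : ℤ, ∀ p, (fl Finset.univ (fun v => Mem N a l v p)).card ≤
      (fl Finset.univ (fun v => Mem N a l v x)).card := by
  classical
  obtain ⟨x, -, hx⟩ := Finset.exists_max_image (Finset.Ico (0 : ℤ) N)
    (fun p => (fl Finset.univ (fun v => Mem N a l v p)).card) ⟨0, Finset.mem_Ico.2 ⟨le_refl _, hN⟩⟩
  refine ⟨x, ?_⟩
  intro p
  refine le_trans (le_of_eq ?_) (hx (p % N) (Finset.mem_Ico.2 ⟨Int.emod_nonneg _ hN.ne',
    Int.emod_lt_of_pos _ hN⟩))
  congr 2
  funext v
  exact propext (mem_mod N a l v p).symm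

theorem minor_of_not_colourable : ∀ (k : ℕ) (V : Type) [Fintype V], Fintype.card V = k →
    ∀ (N : ℤ) (_ : 0 < N) (a l : V → ℤ)
    (_ : ∀ v, 0 ≤ a v ∧ a v < N) (_ : ∀ v, 0 ≤ l v ∧ l v < N)
    (_ : ∀ u₁ u₂ u₃ : V, ∃ p, ¬ Mem N a l u₁ p ∧ ¬ Mem N a l u₂ p ∧ ¬ Mem N a l u₃ p)
    (G : SimpleGraph V) (_ : ∀ u v, G.Adj u v ↔ u ≠ v ∧ ∃ p, Mem N a l u p ∧ Mem N a l v p)
    (n : ℕ) (_ : ¬ ∃ c : V → ℕ, (∀ v, c v < n) ∧ ∀ u v, G.Adj u v → c u ≠ c v),
    HasMinor G (n + 1) := by
  intro k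
  induction k with
  | zero =>
    intro V _ hk N hN a l ha hl h3 G hG n hno
    exfalso
    apply hno
    have hemp : IsEmpty V := Fintype.card_eq_zero_iff.1 hk
    exact ⟨fun _ => 0, fun v => (hemp.false v).elim, fun u => (hemp.false u).elim⟩
  | succ k ih =>
    intro V _ hk N hN a l ha hl h3 G hG n hno
    classical
    by_cases hcrit : ∀ q, ∃ c : V → ℕ, (∀ v, v ≠ q → c v < n) ∧
      ∀ u v, u ≠ q → v ≠ q → G.Adj u v → c u ≠ c v
    · obtain ⟨x, hx⟩ := exists_max_load N hN a l
      obtain ⟨L, hLdef⟩ : ∃ L : ℕ, L = (fl Finset.univ (fun v => Mem N a l v x)).card := ⟨_, rfl⟩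
      rw [← hLdef] at hx
      have hreb : ∀ p, (fl Finset.univ (fun v => Mem N (fun v => (a v - x) % N) l v p)).card =
          (fl Finset.univ (fun v => Mem N a l v (p + x))).card := by
        intro p
        congr 2
        funext v
        exact propext (mem_rebase N a l x v p)
      refine main_crit N hN (fun v => (a v - x) % N) l
        (fun v => ⟨Int.emod_nonneg _ hN.ne', Int.emod_lt_of_pos _ hN⟩) hl ?_ G ?_ L n ?_ ?_
        hcrit hno
      · intro u₁ u₂ u₃
        obtain ⟨p, h4, h5, h6⟩ := h3 u₁ u₂ u₃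
        refine ⟨p - x, ?_, ?_, ?_⟩
        · rw [mem_rebase, sub_add_cancel]
          exact h4
        · rw [mem_rebase, sub_add_cancel]
          exact h5
        · rw [mem_rebase, sub_add_cancel]
          exact h6
      · intro u v
        rw [hG u v]
        constructor
        · rintro ⟨h4, p, h5, h6⟩
          refine ⟨h4, p - x, ?_, ?_⟩
          · rw [mem_rebase, sub_add_cancel]
            exact h5
          · rw [mem_rebase, sub_add_cancel]
            exact h6
        · rintro ⟨h4, p, h5, h6⟩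
          exact ⟨h4, p + x, (mem_rebase N a l x u p).1 h5, (mem_rebase N a l x v p).1 h6⟩
      · intro p
        rw [hreb]
        exact hx _
      · rw [hreb, zero_add]
        exact hLdef.symm
    · push Not at hcrit
      obtain ⟨q, hq⟩ := hcrit
      have hcard : Fintype.card {v : V // v ≠ q} = k := by
        rw [Fintype.card_subtype, Finset.filter_ne', Finset.card_erase_of_mem (Finset.mem_univ q),
          Finset.card_univ, hk]
        rfl
      refine hasMinor_comap G (fun v : {v : V // v ≠ q} => v.1) Subtype.val_injective (n + 1) ?_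
      refine ih {v : V // v ≠ q} hcard N hN (fun v => a v.1) (fun v => l v.1)
        (fun v => ha v.1) (fun v => hl v.1) ?_ _ ?_ n ?_
      · intro u₁ u₂ u₃
        exact h3 u₁.1 u₂.1 u₃.1
      · intro u v
        rw [SimpleGraph.comap_adj, hG u.1 v.1]
        constructor
        · rintro ⟨h4, h5⟩
          exact ⟨fun h => h4 (congrArg Subtype.val h), h5⟩
        · rintro ⟨h4, h5⟩
          exact ⟨fun h => h4 (Subtype.ext h), h5⟩
      · rintro ⟨c, hc1, hc2⟩
        obtain ⟨u, v, hu, hv, huv, heq⟩ := hq (fun v => if h : v ≠ q then c ⟨v, h⟩ else 0) (by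
          intro v hv
          rw [dif_pos hv]
          exact hc1 _)
        rw [dif_pos hu, dif_pos hv] at heq
        exact hc2 ⟨u, hu⟩ ⟨v, hv⟩ huv heq

end Pool.Agent.Lib.MP_534936_co
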