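import Mathlib

/-!
# Greedy extension of colourings

Used for Hadwiger's conjecture for circular-arc graphs (MP_534936_co). Colours are natural numbers.
-/

set_option autoImplicit false

namespace Pool.Agent.Lib.MP_534936_co

open Finset

/-- `filter` with the classical decidability instance -/
noncomputable def fl {V : Type} (S : Finset V) (p : V → Prop) : Finset V :=
  @Finset.filter V p (fun _ => Classical.propDecidable _) S

theorem mem_fl {V : Type} {S : Finset V} {p : V → Prop} {v : V} : v ∈ fl S p ↔ v ∈ S ∧ p v := by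
  unfold fl
  rw [@Finset.mem_filter]

theorem fl_subset {V : Type} (S : Finset V) (p : V → Prop) : fl S p ⊆ S := fun _ h => (mem_fl.1 h).1

open scoped Classical in
/-- Greedy extension of a partial colouring: the vertices of `I` get colours of `P`, in the order of `key`. -/
theorem greedy_ext {V : Type} (Adj : V → V → Prop)
    (hs : ∀ u v, Adj u v → Adj v u) (hirr : ∀ v, ¬ Adj v v) (key : V → ℤ) (P : Finset ℕ) :
    ∀ (n : ℕ) (I A : Finset V) (c : V → ℕ), I.card = n → Disjoint A I →
      (∀ u ∈ A, ∀ v ∈ A, Adj u v → c u ≠ c v) →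
      (∀ t ∈ I, (fl A (fun u => Adj t u ∧ c u ∈ P)).card +
        (fl I (fun u => Adj t u ∧ key u ≤ key t)).card < P.card) →
      ∃ c' : V → ℕ, (∀ u ∈ A ∪ I, ∀ v ∈ A ∪ I, Adj u v → c' u ≠ c' v) ∧ (∀ u ∈ A, c' u = c u) ∧
        ∀ t ∈ I, c' t ∈ P := by
  intro n
  induction n with
  | zero =>
    intro I A c hI _ hc _
    rw [Finset.card_eq_zero] at hI
    subst hI
    refine ⟨c, ?_, fun u _ => rfl, fun t ht => absurd ht (Finset.notMem_empty t)⟩
    rw [Finset.union_empty]
    exact hc
  | succ n ih =>
    intro I A c hI hAI hc hcnt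
    have hne : I.Nonempty := by
      rw [← Finset.card_pos, hI]
      exact Nat.succ_pos n
    obtain ⟨t, htI, htmax⟩ := Finset.exists_max_image I key hne
    have htA : t ∉ A := fun h => (Finset.disjoint_left.1 hAI h) htI
    obtain ⟨c0, h1, h2, h3⟩ := ih (I.erase t) A c (by rw [Finset.card_erase_of_mem htI, hI]; rfl)
      (hAI.mono_right (Finset.erase_subset t I)) hc (by
        intro u hu
        refine lt_of_le_of_lt ?_ (hcnt u (Finset.mem_of_mem_erase hu))
        refine Nat.add_le_add_left (Finset.card_le_card ?_) _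
        intro v hv
        rw [mem_fl] at hv ⊢
        exact ⟨Finset.mem_of_mem_erase hv.1, hv.2⟩)
    obtain ⟨U, hU⟩ : ∃ U : Finset ℕ, U = ((fl A (fun u => Adj t u ∧ c u ∈ P)).image c) ∪
      ((fl I (fun u => Adj t u ∧ key u ≤ key t)).image c0) := ⟨_, rfl⟩
    have hUc : U.card < P.card := by
      rw [hU]
      refine lt_of_le_of_lt (Finset.card_union_le _ _) (lt_of_le_of_lt ?_ (hcnt t htI))
      exact Nat.add_le_add Finset.card_image_le Finset.card_image_le
    obtain ⟨col, hcP, hcU⟩ := Finset.exists_mem_notMem_of_card_lt_card hUc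
    have hkey : ∀ v ∈ A ∪ I, v ≠ t → Adj t v → c0 v ≠ col := by
      intro v hv hvt hadj he
      apply hcU
      rw [hU, Finset.mem_union]
      rcases Finset.mem_union.1 hv with hvA | hvI
      · left
        refine Finset.mem_image.2 ⟨v, mem_fl.2 ⟨hvA, hadj, ?_⟩, ?_⟩
        · rw [← h2 v hvA, he]
          exact hcP
        · rw [← h2 v hvA, he]
      · right
        exact Finset.mem_image.2 ⟨v, mem_fl.2 ⟨hvI, hadj, htmax v hvI⟩, he⟩
    refine ⟨Function.update c0 t col, ?_, ?_, ?_⟩
    · intro u hu v hv huv
      by_cases hut : u = t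
      · have hvt : v ≠ t := by
          intro h
          rw [hut, h] at huv
          exact hirr t huv
        rw [hut, Function.update_self, Function.update_of_ne hvt]
        rw [hut] at huv
        exact (hkey v hv hvt huv).symm
      · by_cases hvt : v = t
        · rw [hvt, Function.update_self, Function.update_of_ne hut]
          rw [hvt] at huv
          exact hkey u hu hut (hs _ _ huv)
        · rw [Function.update_of_ne hut, Function.update_of_ne hvt]
          refine h1 u ?_ v ?_ huv
          · rcases Finset.mem_union.1 hu with h | h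
            · exact Finset.mem_union_left _ h
            · exact Finset.mem_union_right _ (Finset.mem_erase.2 ⟨hut, h⟩)
          · rcases Finset.mem_union.1 hv with h | h
            · exact Finset.mem_union_left _ h
            · exact Finset.mem_union_right _ (Finset.mem_erase.2 ⟨hvt, h⟩)
    · intro u hu
      have hut : u ≠ t := fun h => htA (h ▸ hu)
      rw [Function.update_of_ne hut]
      exact h2 u hu
    · intro u hu
      by_cases hut : u = t
      · rw [hut, Function.update_self]
        exact hcP
      · rw [Function.update_of_ne hut]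
        exact h3 u (Finset.mem_erase.2 ⟨hut, hu⟩)

/-- Interval families of load at most `L` are `L`-colourable. -/
theorem interval_col {V : Type} (S : Finset V) (a e : V → ℤ) (L : ℕ)
    (hL : ∀ p : ℤ, (fl S (fun u => a u ≤ p ∧ p ≤ e u)).card ≤ L) (hae : ∀ u ∈ S, a u ≤ e u) :
    ∃ c : V → ℕ, (∀ u ∈ S, c u < L) ∧
      ∀ u ∈ S, ∀ v ∈ S, u ≠ v → a u ≤ e v → a v ≤ e u → c u ≠ c v := by
  classical
  obtain ⟨c, h1, -, h3⟩ := greedy_ext (fun u v : V => u ≠ v ∧ (a u ≤ e v ∧ a v ≤ e u))
    (fun u v h => ⟨h.1.symm, h.2.2, h.2.1⟩) (fun v h => h.1 rfl) a (Finset.range L) S.card S ∅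
    (fun _ => 0) rfl (Finset.disjoint_empty_left S)
    (fun u hu => absurd hu (Finset.notMem_empty u)) (by
      intro t ht
      have h0 : (fl (∅ : Finset V) (fun u => (t ≠ u ∧ (a t ≤ e u ∧ a u ≤ e t)) ∧
          (fun _ => 0) u ∈ Finset.range L)).card = 0 := by
        rw [Finset.card_eq_zero, Finset.eq_empty_iff_forall_notMem]
        intro u hu
        exact Finset.notMem_empty u (mem_fl.1 hu).1
      rw [h0, Nat.zero_add, Finset.card_range]
      refine lt_of_lt_of_le (Finset.card_lt_card ?_) (hL (a t))
      rw [Finset.ssubset_iff_of_subset]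
      · refine ⟨t, mem_fl.2 ⟨ht, le_refl _, hae t ht⟩, ?_⟩
        intro h
        exact (mem_fl.1 h).2.1.1 rfl
      · intro u hu
        rw [mem_fl] at hu ⊢
        exact ⟨hu.1, hu.2.2, hu.2.1.2.1⟩)
  refine ⟨c, ?_, ?_⟩
  · intro u hu
    exact Finset.mem_range.1 (h3 u hu)
  · intro u hu v hv huv h4 h5
    exact h1 u (Finset.mem_union_right _ hu) v (Finset.mem_union_right _ hv) ⟨huv, h4, h5⟩

end Pool.Agent.Lib.MP_534936_co
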