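import Pool.Agent.Lib.MP_534936_co.Greedy

/-!
# Moving tokens through an interval family

Tokens sit on different intervals; in the order of right end points a token hops from its interval to an interval which
contains the right end point, ends later, carries no token and is not forbidden for this token.
-/

set_option autoImplicit false

namespace Pool.Agent.Lib.MP_534936_co

open Finset

theorem conn_single {V : Type} (G : SimpleGraph V) (v : V) : (G.induce ({v} : Set V)).Connected := by
  have hv : v ∈ ({v} : Set V) := rfl
  have : Nonempty ({v} : Set V) := ⟨⟨v, hv⟩⟩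
  refine SimpleGraph.Connected.mk fun x y => ?_
  have h : x = y := by
    apply Subtype.ext
    have h1 : x.1 = v := x.2
    have h2 : y.1 = v := y.2
    rw [h1, h2]
  rw [h]

theorem conn_union {V : Type} (G : SimpleGraph V) {s t : Set V} {x y : V}
    (hs : (G.induce s).Connected) (ht : (G.induce t).Connected) (hx : x ∈ s) (hy : y ∈ t)
    (hxy : x = y ∨ G.Adj x y) : (G.induce (s ∪ t)).Connected := by
  rcases hxy with h | h
  · subst h
    exact SimpleGraph.induce_union_connected hs.preconnected ht.preconnected ⟨x, hx, hy⟩
  · have h1 : (G.induce (s ∪ {x, y})).Connected :=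
      SimpleGraph.induce_union_connected hs.preconnected
        (SimpleGraph.induce_pair_connected_of_adj h).preconnected ⟨x, hx, Set.mem_insert _ _⟩
    have h2 : (G.induce ((s ∪ {x, y}) ∪ t)).Connected :=
      SimpleGraph.induce_union_connected h1.preconnected ht.preconnected
        ⟨y, Or.inr (Set.mem_insert_of_mem _ rfl), hy⟩
    have h3 : (s ∪ {x, y}) ∪ t = s ∪ t := by
      ext w
      simp only [Set.mem_union, Set.mem_insert_iff, Set.mem_singleton_iff]
      constructor
      · rintro ((h | h | h) | h)
        · exact Or.inl h
        · exact Or.inl (h ▸ hx)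
        · exact Or.inr (h ▸ hy)
        · exact Or.inr h
      · rintro (h | h)
        · exact Or.inl (Or.inl h)
        · exact Or.inr h
    rwa [h3] at h2

theorem hop {V ι : Type} [Fintype ι] (G : SimpleGraph V) (H : Finset V) (a e : V → ℤ) (B : ℤ)
    (F : ι → V → Prop)
    (hadj : ∀ u ∈ H, ∀ v ∈ H, u ≠ v → ∀ p, a u ≤ p → p ≤ e u → a v ≤ p → p ≤ e v → G.Adj u v)
    (hae : ∀ v ∈ H, a v ≤ e v)
    (hcnt : ∀ p, p < B → (∃ g ∈ H, e g = p) → ∀ i,
      Fintype.card ι ≤ (fl H (fun h => a h ≤ p ∧ p < e h ∧ ¬ F i h)).card) :
    ∀ (n : ℕ) (x : ι → V), (∑ i, (fl H (fun g => e (x i) < e g)).card) ≤ n →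
      Function.Injective x → (∀ i, x i ∈ H) → (∀ i, ¬ F i (x i)) →
      ∃ (Γ : ι → Finset V) (z : ι → V), (∀ i, Γ i ⊆ H) ∧ (∀ i, x i ∈ Γ i) ∧ (∀ i, z i ∈ Γ i) ∧
        (∀ i j, i ≠ j → Disjoint (Γ i) (Γ j)) ∧ (∀ i, B ≤ e (z i)) ∧
        (∀ i, ∀ g ∈ Γ i, g = z i ∨ e g < B) ∧ (∀ i, ∀ g ∈ Γ i, ¬ F i g) ∧
        (∀ i, z i = x i ∨ a (z i) < B) ∧ (∀ i, ∀ g ∈ Γ i, g = x i ∨ e (x i) < e g) ∧
        (∀ i, (G.induce (Γ i : Set V)).Connected) := by
  classical
  intro n
  induction n with
  | zero =>
    intro x hn hinj hxH hF
    by_cases hall : ∀ i, B ≤ e (x i)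
    · refine ⟨fun i => {x i}, x, ?_, ?_, ?_, ?_, hall, ?_, ?_, fun i => Or.inl rfl, ?_, ?_⟩
      · intro i v hv
        rw [Finset.mem_singleton] at hv
        rw [hv]
        exact hxH i
      · exact fun i => Finset.mem_singleton_self _
      · exact fun i => Finset.mem_singleton_self _
      · intro i j hij
        rw [Finset.disjoint_singleton]
        exact fun h => hij (hinj h)
      · exact fun i g hg => Or.inl (Finset.mem_singleton.1 hg)
      · intro i g hg
        rw [Finset.mem_singleton.1 hg]
        exact hF i
      · exact fun i g hg => Or.inl (Finset.mem_singleton.1 hg)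
      · intro i
        rw [Finset.coe_singleton]
        exact conn_single G (x i)
    · exfalso
      push Not at hall
      obtain ⟨i, hi⟩ := hall
      have h1 := hcnt (e (x i)) hi ⟨x i, hxH i, rfl⟩ i
      have h2 : 0 < Fintype.card ι := Fintype.card_pos_iff.2 ⟨i⟩
      have h3 : 0 < (fl H (fun h => a h ≤ e (x i) ∧ e (x i) < e h ∧ ¬ F i h)).card :=
        lt_of_lt_of_le h2 h1
      obtain ⟨g, hg⟩ := Finset.card_pos.1 h3
      have hg' := mem_fl.1 hg
      have h4 : 0 < (fl H (fun g => e (x i) < e g)).card :=
        Finset.card_pos.2 ⟨g, mem_fl.2 ⟨hg'.1, hg'.2.2.1⟩⟩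
      have h5 : (fl H (fun g => e (x i) < e g)).card ≤
          ∑ i, (fl H (fun g => e (x i) < e g)).card :=
        Finset.single_le_sum (f := fun i => (fl H (fun g => e (x i) < e g)).card)
          (fun _ _ => Nat.zero_le _) (Finset.mem_univ i)
      omega
  | succ n ih =>
    intro x hn hinj hxH hF
    by_cases hall : ∀ i, B ≤ e (x i)
    · refine ⟨fun i => {x i}, x, ?_, ?_, ?_, ?_, hall, ?_, ?_, fun i => Or.inl rfl, ?_, ?_⟩
      · intro i v hv
        rw [Finset.mem_singleton] at hv
        rw [hv]
        exact hxH i
      · exact fun i => Finset.mem_singleton_self _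
      · exact fun i => Finset.mem_singleton_self _
      · intro i j hij
        rw [Finset.disjoint_singleton]
        exact fun h => hij (hinj h)
      · exact fun i g hg => Or.inl (Finset.mem_singleton.1 hg)
      · intro i g hg
        rw [Finset.mem_singleton.1 hg]
        exact hF i
      · exact fun i g hg => Or.inl (Finset.mem_singleton.1 hg)
      · intro i
        rw [Finset.coe_singleton]
        exact conn_single G (x i)
    · push Not at hall
      obtain ⟨i1, hi1⟩ := hall
      obtain ⟨i0, -, hmin⟩ := Finset.exists_min_image Finset.univ (fun i => e (x i))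
        ⟨i1, Finset.mem_univ i1⟩
      have hi0 : e (x i0) < B := lt_of_le_of_lt (hmin i1 (Finset.mem_univ i1)) hi1
      have h1 := hcnt (e (x i0)) hi0 ⟨x i0, hxH i0, rfl⟩ i0
      have h2 : ((Finset.univ.erase i0).image x).card <
          (fl H (fun h => a h ≤ e (x i0) ∧ e (x i0) < e h ∧ ¬ F i0 h)).card := by
        refine lt_of_lt_of_le (lt_of_le_of_lt Finset.card_image_le ?_) h1
        rw [Finset.card_erase_of_mem (Finset.mem_univ i0), Finset.card_univ]
        have : 0 < Fintype.card ι := Fintype.card_pos_iff.2 ⟨i0⟩
        omega
      obtain ⟨h, hh, hhx⟩ := Finset.exists_mem_notMem_of_card_lt_card h2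
      obtain ⟨hhH, hha, hhe, hhF⟩ := mem_fl.1 hh
      have hne : ∀ j, j ≠ i0 → h ≠ x j := by
        intro j hj he
        apply hhx
        rw [he]
        exact Finset.mem_image_of_mem x (Finset.mem_erase.2 ⟨hj, Finset.mem_univ j⟩)
      have hx0 : ∀ j, j ≠ i0 → Function.update x i0 h j = x j := fun j hj =>
        Function.update_of_ne hj h x
      have hx1 : Function.update x i0 h i0 = h := Function.update_self i0 h x
      obtain ⟨Γ, z, c1, c2, c3, c4, c5, c6, c7, c8, c9, c10⟩ := ih (Function.update x i0 h) (by
          have hlt : ∑ i, (fl H (fun g => e (Function.update x i0 h i) < e g)).card <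
              ∑ i, (fl H (fun g => e (x i) < e g)).card := by
            refine Finset.sum_lt_sum ?_ ⟨i0, Finset.mem_univ i0, ?_⟩
            · intro i _
              by_cases hi : i = i0
              · rw [hi, hx1]
                refine Finset.card_le_card fun g hg => ?_
                rw [mem_fl] at hg ⊢
                exact ⟨hg.1, lt_trans hhe hg.2⟩
              · rw [hx0 i hi]
            · rw [hx1]
              refine Finset.card_lt_card ?_
              rw [Finset.ssubset_iff_of_subset]
              · exact ⟨h, mem_fl.2 ⟨hhH, hhe⟩, fun hc => lt_irrefl _ (mem_fl.1 hc).2⟩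
              · intro g hg
                rw [mem_fl] at hg ⊢
                exact ⟨hg.1, lt_trans hhe hg.2⟩
          omega) (by
          intro i j hij
          by_cases hi : i = i0
          · by_cases hj : j = i0
            · rw [hi, hj]
            · rw [hi, hx1, hx0 j hj] at hij
              exact absurd hij (hne j hj)
          · by_cases hj : j = i0
            · rw [hj, hx1, hx0 i hi] at hij
              exact absurd hij.symm (hne i hi)
            · rw [hx0 i hi, hx0 j hj] at hij
              exact hinj hij) (by
          intro i
          by_cases hi : i = i0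
          · rw [hi, hx1]
            exact hhH
          · rw [hx0 i hi]
            exact hxH i) (by
          intro i
          by_cases hi : i = i0
          · rw [hi, hx1]
            exact hhF
          · rw [hx0 i hi]
            exact hF i)
      have hnot : ∀ j, x i0 ∉ Γ j := by
        intro j hj
        rcases c9 j (x i0) hj with h3 | h3
        · by_cases hji : j = i0
          · rw [hji, hx1] at h3
            rw [← h3] at hhe
            exact lt_irrefl _ hhe
          · rw [hx0 j hji] at h3
            exact hji (hinj h3).symm
        · by_cases hji : j = i0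
          · rw [hji, hx1] at h3
            exact lt_asymm h3 hhe
          · rw [hx0 j hji] at h3
            exact absurd h3 (not_lt.2 (hmin j (Finset.mem_univ j)))
      obtain ⟨Γ', hΓ'⟩ : ∃ Γ' : ι → Finset V, Γ' = Function.update Γ i0 (insert (x i0) (Γ i0)) :=
        ⟨_, rfl⟩
      have e0 : ∀ j, j ≠ i0 → Γ' j = Γ j := fun j hj => by
        rw [hΓ']
        exact Function.update_of_ne hj _ _
      have e1 : Γ' i0 = insert (x i0) (Γ i0) := by
        rw [hΓ']
        exact Function.update_self _ _ _
      refine ⟨Γ', z, ?_, ?_, ?_, ?_, c5, ?_, ?_, ?_, ?_, ?_⟩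
      · intro i
        by_cases hi : i = i0
        · rw [hi, e1]
          intro g hg
          rcases Finset.mem_insert.1 hg with h3 | h3
          · rw [h3]
            exact hxH i0
          · exact c1 i0 h3
        · rw [e0 i hi]
          exact c1 i
      · intro i
        by_cases hi : i = i0
        · rw [hi, e1]
          exact Finset.mem_insert_self _ _
        · rw [e0 i hi, ← hx0 i hi]
          exact c2 i
      · intro i
        by_cases hi : i = i0
        · rw [hi, e1]
          exact Finset.mem_insert_of_mem (c3 i0)
        · rw [e0 i hi]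
          exact c3 i
      · intro i j hij
        by_cases hi : i = i0
        · have hj : j ≠ i0 := fun h3 => hij (hi.trans h3.symm)
          rw [hi, e1, e0 j hj, Finset.disjoint_insert_left]
          exact ⟨hnot j, c4 i0 j hj.symm⟩
        · by_cases hj : j = i0
          · rw [hj, e1, e0 i hi, Finset.disjoint_insert_right]
            exact ⟨hnot i, c4 i i0 hi⟩
          · rw [e0 i hi, e0 j hj]
            exact c4 i j hij
      · intro i g hg
        by_cases hi : i = i0
        · rw [hi, e1] at hg
          rcases Finset.mem_insert.1 hg with h3 | h3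
          · right
            rw [h3]
            exact hi0
          · rw [hi]
            exact c6 i0 g h3
        · rw [e0 i hi] at hg
          exact c6 i g hg
      · intro i g hg
        by_cases hi : i = i0
        · rw [hi, e1] at hg
          rcases Finset.mem_insert.1 hg with h3 | h3
          · rw [h3, hi]
            exact hF i0
          · rw [hi]
            exact c7 i0 g h3
        · rw [e0 i hi] at hg
          exact c7 i g hg
      · intro i
        by_cases hi : i = i0
        · right
          rw [hi]
          rcases c8 i0 with h3 | h3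
          · rw [h3, hx1]
            exact lt_of_le_of_lt hha hi0
          · exact h3
        · rcases c8 i with h3 | h3
          · left
            rw [h3, hx0 i hi]
          · exact Or.inr h3
      · intro i g hg
        by_cases hi : i = i0
        · rw [hi, e1] at hg
          rcases Finset.mem_insert.1 hg with h3 | h3
          · left
            rw [h3, hi]
          · right
            rw [hi]
            rcases c9 i0 g h3 with h4 | h4
            · rw [h4, hx1]
              exact hhe
            · rw [hx1] at h4
              exact lt_trans hhe h4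
        · rw [e0 i hi] at hg
          have h3 := c9 i g hg
          rwa [hx0 i hi] at h3
      · intro i
        by_cases hi : i = i0
        · rw [hi, e1, Finset.coe_insert, Set.insert_eq]
          have hmem : h ∈ (Γ i0 : Set V) := by
            have h3 := c2 i0
            rw [hx1] at h3
            exact Finset.mem_coe.2 h3
          refine conn_union G (conn_single G (x i0)) (c10 i0) rfl hmem (Or.inr ?_)
          refine hadj (x i0) (hxH i0) h hhH ?_ (e (x i0)) (hae _ (hxH i0)) (le_refl _) hha hhe.le
          intro h3
          rw [← h3] at hhe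
          exact lt_irrefl _ hhe
        · rw [e0 i hi]
          exact c10 i

end Pool.Agent.Lib.MP_534936_co
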