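import Pool.Agent.Lib.MP_534936_co.Cross
import Pool.Agent.Lib.MP_534936_co.Hop
import Pool.Agent.Lib.MP_534936_co.Enum

/-!
# Critical families: the minor
-/

set_option autoImplicit false

namespace Pool.Agent.Lib.MP_534936_co

open Finset

/-- a complete minor with `k` branch sets -/
def HasMinor {V : Type} (G : SimpleGraph V) (k : ℕ) : Prop :=
  ∃ f : Fin k → Set V, (∀ i, (G.induce (f i)).Connected) ∧
    ∀ i j, i ≠ j → Disjoint (f i) (f j) ∧ ∃ x ∈ f i, ∃ y ∈ f j, G.Adj x y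

theorem hasMinor_of_equiv {V ι : Type} [Fintype ι] (G : SimpleGraph V) (k : ℕ)
    (hk : Fintype.card ι = k) (f : ι → Set V) (h1 : ∀ i, (G.induce (f i)).Connected)
    (h2 : ∀ i j, i ≠ j → Disjoint (f i) (f j) ∧ ∃ x ∈ f i, ∃ y ∈ f j, G.Adj x y) :
    HasMinor G k := by
  classical
  obtain ⟨e⟩ : Nonempty (Fin k ≃ ι) := ⟨(Fintype.equivFinOfCardEq hk).symm⟩
  exact ⟨fun i => f (e i), fun i => h1 (e i), fun i j hij => h2 (e i) (e j) (fun h => hij (e.injective h))⟩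

/-- a clique of size at least `k` -/
theorem hasMinor_of_clique {V : Type} [Fintype V] (G : SimpleGraph V) (k : ℕ) (Q : Finset V)
    (hQ : k ≤ Q.card) (hadj : ∀ u ∈ Q, ∀ v ∈ Q, u ≠ v → G.Adj u v) : HasMinor G k := by
  classical
  obtain ⟨T, hTQ, hT⟩ := Finset.exists_subset_card_eq hQ
  refine hasMinor_of_equiv (ι := {v // v ∈ T}) G k (by rw [Fintype.card_coe, hT])
    (fun v => {v.1}) (fun v => conn_single G v.1) ?_
  intro u v huv
  have hne : u.1 ≠ v.1 := fun h => huv (Subtype.ext h)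
  refine ⟨?_, u.1, rfl, v.1, rfl, hadj _ (hTQ u.2) _ (hTQ v.2) hne⟩
  rw [Set.disjoint_singleton]
  exact hne

open scoped Classical in
/-- The two linkages glued together. `Q` clique, `x`, `y` the end arcs of the groups on both sides. -/
theorem glue {V : Type} [Fintype V] (G : SimpleGraph V) (Q : Finset V) (L m k : ℕ)
    (hk : k = L + m) (hQ : Q.card = L) (a e : V → ℤ) (B : ℤ) (H : Finset V)
    (hQH : ∀ q ∈ Q, q ∉ H)
    (hQQ : ∀ u ∈ Q, ∀ v ∈ Q, u ≠ v → G.Adj u v)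
    (hadj : ∀ u ∈ H, ∀ v ∈ H, u ≠ v → ∀ p, a u ≤ p → p ≤ e u → a v ≤ p → p ≤ e v → G.Adj u v)
    (hae : ∀ v ∈ H, a v ≤ e v)
    (Γ Δ : Fin m → Finset V) (z w : Fin m → V)
    (hΓ : ∀ i, Γ i ⊆ H) (hΔ : ∀ i, Δ i ⊆ H)
    (hz : ∀ i, z i ∈ Γ i) (hw : ∀ i, w i ∈ Δ i)
    (hΓd : ∀ i j, i ≠ j → Disjoint (Γ i) (Γ j)) (hΔd : ∀ i j, i ≠ j → Disjoint (Δ i) (Δ j))
    (hz1 : ∀ i, B ≤ e (z i)) (hz2 : ∀ i, a (z i) < B)
    (hw1 : ∀ i, a (w i) < B) (hw2 : ∀ i, B ≤ e (w i))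
    (hΓ1 : ∀ i, ∀ g ∈ Γ i, g = z i ∨ e g < B) (hΔ1 : ∀ i, ∀ g ∈ Δ i, g = w i ∨ B ≤ a g)
    (hΓF : ∀ i, ∀ g ∈ Γ i, ¬ ∃ j, j ≠ i ∧ g = w j)
    (hΓc : ∀ i, (G.induce (Γ i : Set V)).Connected) (hΔc : ∀ i, (G.induce (Δ i : Set V)).Connected)
    (hq : ∀ q ∈ Q, ∀ i, ∃ g ∈ Γ i ∪ Δ i, G.Adj q g) : HasMinor G k := by
  have hzH : ∀ i, z i ∈ H := fun i => hΓ i (hz i)
  have hwH : ∀ i, w i ∈ H := fun i => hΔ i (hw i)
  have hPH : ∀ i, ∀ g ∈ Γ i ∪ Δ i, g ∈ H := by
    intro i g hg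
    rcases Finset.mem_union.1 hg with h | h
    · exact hΓ i h
    · exact hΔ i h
  have hcross : ∀ i j, i ≠ j → ∀ g, g ∈ Γ i → g ∈ Δ j → False := by
    intro i j hij g hg hg'
    rcases hΓ1 i g hg with h1 | h1
    · rcases hΔ1 j g hg' with h2 | h2
      · exact hΓF i g hg ⟨j, hij.symm, h2⟩
      · have := hz2 i
        rw [← h1] at this
        omega
    · rcases hΔ1 j g hg' with h2 | h2
      · have := hw2 j
        rw [← h2] at this
        omega
      · have := hae g (hΓ i hg)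
        omega
  have hdisj : ∀ i j, i ≠ j → Disjoint (Γ i ∪ Δ i) (Γ j ∪ Δ j) := by
    intro i j hij
    rw [Finset.disjoint_left]
    intro g hg hg'
    rcases Finset.mem_union.1 hg with h1 | h1
    · rcases Finset.mem_union.1 hg' with h2 | h2
      · exact (Finset.disjoint_left.1 (hΓd i j hij)) h1 h2
      · exact hcross i j hij g h1 h2
    · rcases Finset.mem_union.1 hg' with h2 | h2
      · exact hcross j i hij.symm g h2 h1
      · exact (Finset.disjoint_left.1 (hΔd i j hij)) h1 h2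
  obtain ⟨f, hf⟩ : ∃ f : {v // v ∈ Q} ⊕ Fin m → Set V, f = fun x =>
    Sum.elim (fun q : {v // v ∈ Q} => ({q.1} : Set V)) (fun i => ((Γ i ∪ Δ i : Finset V) : Set V)) x :=
    ⟨_, rfl⟩
  have f1 : ∀ q, f (Sum.inl q) = {q.1} := fun q => by rw [hf]; rfl
  have f2 : ∀ i, f (Sum.inr i) = ((Γ i ∪ Δ i : Finset V) : Set V) := fun i => by rw [hf]; rfl
  refine hasMinor_of_equiv G k ?_ f ?_ ?_
  · rw [Fintype.card_sum, Fintype.card_coe, Fintype.card_fin, hQ, hk]
  · intro x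
    rcases x with q | i
    · rw [f1]
      exact conn_single G q.1
    · rw [f2, Finset.coe_union]
      refine conn_union G (hΓc i) (hΔc i) (hz i) (hw i) ?_
      by_cases h : z i = w i
      · exact Or.inl h
      · right
        exact hadj _ (hzH i) _ (hwH i) h B (hz2 i).le (hz1 i) (hw1 i).le (hw2 i)
  · have hqi : ∀ q ∈ Q, ∀ i, Disjoint ({q} : Set V) ((Γ i ∪ Δ i : Finset V) : Set V) := by
      intro q hqQ i
      rw [Set.disjoint_singleton_left]
      intro h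
      exact hQH q hqQ (hPH i q (Finset.mem_coe.1 h))
    intro x y hxy
    rcases x with q | i
    · rcases y with q' | j
      · have hne : q.1 ≠ q'.1 := fun h => hxy (congrArg Sum.inl (Subtype.ext h))
        rw [f1, f1]
        refine ⟨?_, q.1, rfl, q'.1, rfl, hQQ _ q.2 _ q'.2 hne⟩
        rw [Set.disjoint_singleton]
        exact hne
      · rw [f1, f2]
        obtain ⟨g, hg1, hg2⟩ := hq q.1 q.2 j
        exact ⟨hqi q.1 q.2 j, q.1, rfl, g, Finset.mem_coe.2 hg1, hg2⟩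
    · rcases y with q' | j
      · rw [f1, f2]
        obtain ⟨g, hg1, hg2⟩ := hq q'.1 q'.2 i
        exact ⟨(hqi q'.1 q'.2 i).symm, g, Finset.mem_coe.2 hg1, q'.1, rfl, hg2.symm⟩
      · have hij : i ≠ j := fun h => hxy (congrArg Sum.inr h)
        rw [f2, f2]
        refine ⟨?_, w i, Finset.mem_coe.2 (Finset.mem_union_right _ (hw i)), w j,
          Finset.mem_coe.2 (Finset.mem_union_right _ (hw j)), ?_⟩
        · rw [Finset.disjoint_coe]
          exact hdisj i j hij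
        · refine hadj _ (hwH i) _ (hwH j) ?_ B (hw1 i).le (hw2 i) (hw1 j).le (hw2 j)
          intro h
          exact (Finset.disjoint_left.1 (hΔd i j hij)) (hw i) (h ▸ hw j)

end Pool.Agent.Lib.MP_534936_co
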